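import Mathlib

/-!
# The block step: linear algebra of rank functions

`s` and `t` are the rank functions of the quaternionic structures of a field `K` and of a
quadratic extension `E = K(√u)`; `r`, `N`, `τ` are the restriction, the norm and the conjugation.
-/

namespace Pool.Agent.Hhelper69.Blk

variable {V V' : Type*} [AddCommGroup V] [Module (ZMod 2) V] [AddCommGroup V']
  [Module (ZMod 2) V']

lemma self_add {M : Type*} [AddCommGroup M] [Module (ZMod 2) M] (x : M) : x + x = 0 := by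
  have h : (2 : ZMod 2) • x = 0 := by
    have : (2 : ZMod 2) = 0 := rfl
    rw [this, zero_smul]
  rw [← h, two_smul]

lemma add_self_left {M : Type*} [AddCommGroup M] [Module (ZMod 2) M] (x y : M) :
    x + (x + y) = y := by
  rw [← add_assoc, self_add, zero_add]

lemma eq_of_add {M : Type*} [AddCommGroup M] [Module (ZMod 2) M] {x y : M} (h : x + y = 0) :
    x = y := by
  rw [← add_self_left y x, add_comm y x, h, add_zero]

/-- A subadditive function vanishing at zero. -/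
structure Sub (s : V → ℕ) : Prop where
  zero : s 0 = 0
  add_le : ∀ x y, s (x + y) ≤ s x + s y

lemma Sub.add_rad {s : V → ℕ} (hs : Sub s) {x c : V} (hc : s c = 0) : s (x + c) = s x := by
  apply le_antisymm
  · have := hs.add_le x c
    omega
  · have := hs.add_le (x + c) c
    rw [add_assoc, self_add, add_zero] at this
    omega

/-- A block decomposition: two complementary subspaces with additivity, the first one without
independent pairs. -/
structure BlkAbs (s : V → ℕ) (B C : Submodule (ZMod 2) V) : Prop where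
  compl : IsCompl B C
  add : ∀ b ∈ B, ∀ c ∈ C, s (b + c) = s b + s c
  oe : ∀ x ∈ B, ∀ y ∈ B, s (x + y) = s x + s y → x = 0 ∨ y = 0

lemma BlkAbs.rad {s : V → ℕ} (hs : Sub s) {B C : Submodule (ZMod 2) V} (h : BlkAbs s B C)
    {x : V} (hx : x ∈ B) (h0 : s x = 0) : x = 0 := by
  have h1 := h.oe x hx x hx (by rw [self_add, h0, hs.zero])
  tauto

lemma BlkAbs.exists_add {s : V → ℕ} {B C : Submodule (ZMod 2) V} (h : BlkAbs s B C) (x : V) :
    ∃ b ∈ B, ∃ c ∈ C, x = b + c := by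
  obtain ⟨b, hb, c, hc, hx⟩ := Submodule.mem_sup.1
    (show x ∈ B ⊔ C by rw [h.compl.sup_eq_top]; exact Submodule.mem_top)
  exact ⟨b, hb, c, hc, hx.symm⟩

/-- The components of an equation. -/
lemma BlkAbs.comp_eq {s : V → ℕ} {B C : Submodule (ZMod 2) V} (h : BlkAbs s B C) {b b' c c' : V}
    (hb : b ∈ B) (hb' : b' ∈ B) (hc : c ∈ C) (hc' : c' ∈ C) (e : b + c = b' + c') :
    b = b' ∧ c = c' := by
  have h1 : b + b' = c + c' := by
    have h2 : (b + c) + (b' + c') = 0 := by rw [e, self_add]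
    have h3 : (b + b') + (c + c') = 0 := by rw [← h2]; abel
    exact eq_of_add h3
  have h2 : b + b' = 0 := by
    have h3 := Submodule.disjoint_def.1 h.compl.disjoint (b + b') (B.add_mem hb hb')
      (by rw [h1]; exact C.add_mem hc hc')
    exact h3
  have h3 : c + c' = 0 := by rw [← h1, h2]
  exact ⟨eq_of_add h2, eq_of_add h3⟩

/-- The data of a quadratic extension needed for the block step. -/
structure Ext (s : V → ℕ) (t : V' → ℕ) (r : V →ₗ[ZMod 2] V') (N : V' →ₗ[ZMod 2] V)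
    (τ : V' →ₗ[ZMod 2] V') (u : V) : Prop where
  hs : Sub s
  ht : Sub t
  tau_tau : ∀ x, τ (τ x) = x
  tau_r : ∀ x, τ (r x) = r x
  t_tau : ∀ x, t (τ x) = t x
  r_N : ∀ x, r (N x) = x + τ x
  r_zero : ∀ x, r x = 0 ↔ x = 0 ∨ x = u
  step : ∀ x, t (r x) + s u = s x + s (x + u)
  sN : ∀ x, t (x + τ x) = t x + t (τ x) → s (N x) = t x
  rn : ∀ c, s c = 0 → ∃ w, t w = 0 ∧ N w = c

section

variable {s : V → ℕ} {t : V' → ℕ} {r : V →ₗ[ZMod 2] V'} {N : V' →ₗ[ZMod 2] V}
  {τ : V' →ₗ[ZMod 2] V'} {u : V} (X : Ext s t r N τ u)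

include X

lemma Ext.sN' {x : V'} (h : t (x + τ x) = t x + t (τ x)) : s (N x + u) = s (N x) + s u := by
  have h1 := X.sN x h
  have h2 := X.step (N x)
  rw [X.r_N, h, X.t_tau] at h2
  omega

/-- The step lemma. -/
theorem blk_abs {B C : Submodule (ZMod 2) V} (hBC : BlkAbs s B C) (hu : u ∈ C)
    (hN : ∀ z ∈ B, ∃ y, N y = z) {A W : Submodule (ZMod 2) V'} (hAW : A ⊔ W = ⊤)
    (hrad : ∀ x, x ∈ A ⊓ W ↔ t x = 0) (hadd : ∀ a ∈ A, ∀ w ∈ W, t (a + w) = t a + t w)
    {y₀ : V'} (hA0 : y₀ ∈ A) (hW0 : τ y₀ ∈ W) (hB0 : N y₀ ∈ B) (h0 : N y₀ ≠ 0) :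
    ∃ B' C' : Submodule (ZMod 2) V', BlkAbs t B' C' ∧ (∀ c ∈ C, r c ∈ C') ∧
      (∀ x ∈ B', N x ∈ B) ∧ (∀ b ∈ B, ∃ x ∈ B', N x = b) ∧ (∀ x ∈ B', N x = 0 → x = 0) ∧
      (∀ x ∈ B', τ x ∈ C') ∧ (∀ x ∈ B', ∀ y ∈ B', t (x + τ y) = t x + t (τ y)) := by
  have hs := X.hs
  have ht := X.ht
  -- the radical
  have radA : ∀ x, t x = 0 → x ∈ A := fun x hx => ((hrad x).2 hx).1
  have radW : ∀ x, t x = 0 → x ∈ W := fun x hx => ((hrad x).2 hx).2
  have t_tau := X.t_tau
  -- decomposition along `A, W` and their conjugates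
  have decA : ∀ a ∈ A, ∃ p q, p ∈ A ∧ τ p ∈ A ∧ q ∈ A ∧ τ q ∈ W ∧ a = p + q := by
    intro a ha
    obtain ⟨a', ha', w', hw', e⟩ := Submodule.mem_sup.1
      (show τ a ∈ A ⊔ W by rw [hAW]; exact Submodule.mem_top)
    -- a = τ a' + τ w'
    have e1 : a = τ a' + τ w' := by rw [← map_add, e, X.tau_tau]
    obtain ⟨p1, hp1, p2, hp2, ep⟩ := Submodule.mem_sup.1
      (show τ a' ∈ A ⊔ W by rw [hAW]; exact Submodule.mem_top)
    obtain ⟨q1, hq1, q2, hq2, eq⟩ := Submodule.mem_sup.1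
      (show τ w' ∈ A ⊔ W by rw [hAW]; exact Submodule.mem_top)
    have h1 : t (τ a') = t p1 + t p2 := by rw [← ep, hadd p1 hp1 p2 hp2]
    have h2 : t (τ w') = t q1 + t q2 := by rw [← eq, hadd q1 hq1 q2 hq2]
    have h3 : t a = t (τ a') + t (τ w') := by
      rw [e1, ← map_add, t_tau, hadd a' ha' w' hw', t_tau, t_tau]
    have h4 : a = (p1 + q1) + (p2 + q2) := by
      rw [e1, ← ep, ← eq]; abel
    have h5 : p2 + q2 ∈ A := by
      have : p2 + q2 = a + (p1 + q1) := by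
        rw [h4, add_comm (p1 + q1) (p2 + q2), add_assoc, self_add, add_zero]
      rw [this]
      exact A.add_mem ha (A.add_mem hp1 hq1)
    have h6 : t (p2 + q2) = 0 := (hrad _).1 ⟨h5, W.add_mem hp2 hq2⟩
    have h7 : t a = t (p1 + q1) := by rw [h4, ht.add_rad h6]
    have h8 := ht.add_le p1 q1
    have h9 : t p2 = 0 := by omega
    have h10 : t q2 = 0 := by omega
    refine ⟨τ a', τ w', ?_, ?_, ?_, ?_, e1⟩
    · rw [← ep]; exact A.add_mem hp1 (radA _ h9)
    · rw [X.tau_tau]; exact ha'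
    · rw [← eq]; exact A.add_mem hq1 (radA _ h10)
    · rw [X.tau_tau]; exact hw'
  have decW : ∀ a ∈ W, ∃ p q, p ∈ W ∧ τ p ∈ A ∧ q ∈ W ∧ τ q ∈ W ∧ a = p + q := by
    intro a ha
    obtain ⟨a', ha', w', hw', e⟩ := Submodule.mem_sup.1
      (show τ a ∈ A ⊔ W by rw [hAW]; exact Submodule.mem_top)
    have e1 : a = τ a' + τ w' := by rw [← map_add, e, X.tau_tau]
    obtain ⟨p1, hp1, p2, hp2, ep⟩ := Submodule.mem_sup.1
      (show τ a' ∈ A ⊔ W by rw [hAW]; exact Submodule.mem_top)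
    obtain ⟨q1, hq1, q2, hq2, eq⟩ := Submodule.mem_sup.1
      (show τ w' ∈ A ⊔ W by rw [hAW]; exact Submodule.mem_top)
    have h1 : t (τ a') = t p1 + t p2 := by rw [← ep, hadd p1 hp1 p2 hp2]
    have h2 : t (τ w') = t q1 + t q2 := by rw [← eq, hadd q1 hq1 q2 hq2]
    have h3 : t a = t (τ a') + t (τ w') := by
      rw [e1, ← map_add, t_tau, hadd a' ha' w' hw', t_tau, t_tau]
    have h4 : a = (p2 + q2) + (p1 + q1) := by
      rw [e1, ← ep, ← eq]; abel
    have h5 : p1 + q1 ∈ W := by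
      have : p1 + q1 = a + (p2 + q2) := by
        rw [h4, add_comm (p2 + q2) (p1 + q1), add_assoc, self_add, add_zero]
      rw [this]
      exact W.add_mem ha (W.add_mem hp2 hq2)
    have h6 : t (p1 + q1) = 0 := (hrad _).1 ⟨A.add_mem hp1 hq1, h5⟩
    have h7 : t a = t (p2 + q2) := by rw [h4, ht.add_rad h6]
    have h8 := ht.add_le p2 q2
    have h9 : t p1 = 0 := by omega
    have h10 : t q1 = 0 := by omega
    refine ⟨τ a', τ w', ?_, ?_, ?_, ?_, e1⟩
    · rw [← ep]; exact W.add_mem (radW _ h9) hp2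
    · rw [X.tau_tau]; exact ha'
    · rw [← eq]; exact W.add_mem (radW _ h10) hq2
    · rw [X.tau_tau]; exact hw'
  -- the three parts
  set A1 : Submodule (ZMod 2) V' := A ⊓ W.comap τ with hA1
  have mA1 : ∀ x, x ∈ A1 ↔ x ∈ A ∧ τ x ∈ W := fun x => Iff.rfl
  set A3 : Submodule (ZMod 2) V' := (A ⊓ A.comap τ) ⊔ (W ⊓ W.comap τ) with hA3
  have mA3 : ∀ x, x ∈ A3 ↔ ∃ p q, p ∈ A ∧ τ p ∈ A ∧ q ∈ W ∧ τ q ∈ W ∧ x = p + q := by
    intro x
    rw [hA3, Submodule.mem_sup]
    constructor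
    · rintro ⟨p, ⟨hp1, hp2⟩, q, ⟨hq1, hq2⟩, rfl⟩
      exact ⟨p, q, hp1, hp2, hq1, hq2, rfl⟩
    · rintro ⟨p, q, hp1, hp2, hq1, hq2, rfl⟩
      exact ⟨p, ⟨hp1, hp2⟩, q, ⟨hq1, hq2⟩, rfl⟩
  have radtau : ∀ x, t x = 0 → t (τ x) = 0 := fun x hx => by rw [t_tau, hx]
  have radA1 : ∀ x, t x = 0 → x ∈ A1 := fun x hx => ⟨radA x hx, radW _ (radtau x hx)⟩
  have radA3 : ∀ x, t x = 0 → x ∈ A3 := fun x hx =>
    (mA3 x).2 ⟨x, 0, radA x hx, radA _ (radtau x hx), W.zero_mem, by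
      rw [map_zero]; exact W.zero_mem, by rw [add_zero]⟩
  have A3tau : ∀ x ∈ A3, τ x ∈ A3 := by
    intro x hx
    obtain ⟨p, q, hp1, hp2, hq1, hq2, rfl⟩ := (mA3 x).1 hx
    exact (mA3 _).2 ⟨τ p, τ q, hp2, by rw [X.tau_tau]; exact hp1, hq2,
      by rw [X.tau_tau]; exact hq1, by rw [map_add]⟩
  have dec : ∀ x, ∃ x1 ∈ A1, ∃ x2 ∈ A1, ∃ v ∈ A3, x = x1 + τ x2 + v := by
    intro x
    obtain ⟨a, ha, w, hw, rfl⟩ := Submodule.mem_sup.1
      (show x ∈ A ⊔ W by rw [hAW]; exact Submodule.mem_top)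
    obtain ⟨p, q, hp1, hp2, hq1, hq2, rfl⟩ := decA a ha
    obtain ⟨p', q', hp1', hp2', hq1', hq2', rfl⟩ := decW w hw
    refine ⟨q, ⟨hq1, hq2⟩, τ p', ⟨hp2', by
      show τ (τ p') ∈ W
      rw [X.tau_tau]; exact hp1'⟩, p + q', (mA3 _).2 ⟨p, q', hp1, hp2, hq1', hq2', rfl⟩, ?_⟩
    rw [X.tau_tau]; abel
  have tadd : ∀ x1 ∈ A1, ∀ x2 ∈ A1, ∀ v ∈ A3, t (x1 + τ x2 + v) = t x1 + t x2 + t v := by
    intro x1 h1 x2 h2 v hv
    obtain ⟨p, q, hp1, hp2, hq1, hq2, rfl⟩ := (mA3 v).1 hv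
    obtain ⟨h1A, h1W⟩ := (mA1 _).1 h1
    obtain ⟨h2A, h2W⟩ := (mA1 _).1 h2
    have e1 : x1 + τ x2 + (p + q) = (x1 + p) + (τ x2 + q) := by abel
    rw [e1, hadd (x1 + p) (A.add_mem h1A hp1) (τ x2 + q) (W.add_mem h2W hq1)]
    have e2 : t (x1 + p) = t x1 + t p := by
      rw [← t_tau (x1 + p), map_add, add_comm, hadd _ hp2 _ h1W, t_tau, t_tau, add_comm]
    have e3 : t (τ x2 + q) = t x2 + t q := by
      rw [← t_tau (τ x2 + q), map_add, X.tau_tau, hadd _ h2A _ hq2, t_tau]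
    rw [e2, e3, hadd p hp1 q hq1]
    ring
  have ind1 : ∀ x ∈ A1, ∀ y ∈ A1, t (x + τ y) = t x + t (τ y) := by
    intro x hx y hy
    have := tadd x hx y hy 0 A3.zero_mem
    rw [add_zero, ht.zero, add_zero] at this
    rw [this, t_tau]
  have sN : ∀ x ∈ A1, s (N x) = t x := fun x hx => X.sN x (ind1 x hx x hx)
  have sNu : ∀ x ∈ A1, s (N x + u) = s (N x) + s u := fun x hx => X.sN' (ind1 x hx x hx)
  -- norms of the parts are independent
  have iv : ∀ x ∈ A1, ∀ v ∈ A3, s (N x + N v) = s (N x) + s (N v) ∧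
      s (N x + (N v + u)) = s (N x) + s (N v + u) := by
    intro x hx v hv
    have h1 : t (r (N x) + r (N v)) = t (r (N x)) + t (r (N v)) := by
      rw [X.r_N, X.r_N, tadd x hx x hx _ (A3.add_mem hv (A3tau v hv)), ind1 x hx x hx, t_tau]
    rw [← map_add] at h1
    have h2 := X.step (N x + N v)
    have h3 := X.step (N x)
    have h4 := X.step (N v)
    have h5 := hs.add_le (N x) (N v)
    have h6 := hs.add_le (N x) (N v + u)
    have h7 := sNu x hx
    rw [add_assoc] at h2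
    constructor <;> omega
  -- norms of conjugates
  have Ntau : ∀ x, ∃ ε : V, (ε = 0 ∨ ε = u) ∧ N (τ x) = N x + ε := by
    intro x
    have h1 : r (N (τ x) + N x) = 0 := by
      rw [map_add, X.r_N, X.r_N, X.tau_tau]
      have : τ x + x + (x + τ x) = (τ x + τ x) + (x + x) := by abel
      rw [this, self_add, self_add, add_zero]
    refine ⟨N (τ x) + N x, (X.r_zero _).1 h1, ?_⟩
    rw [add_comm (N (τ x)), add_self_left]
  have sBC := hBC.add
  -- every element of the block is a norm from the first part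
  have hsurj : ∀ z ∈ B, ∃ x ∈ A1, N x = z := by
    -- the two alternatives
    have alt : ∀ z ∈ B, (∃ x ∈ A1, ∃ c, s c = 0 ∧ N x = z + c) ∨
        (∃ v ∈ A3, ∃ ε : V, (ε = 0 ∨ ε = u) ∧ ∃ c, s c = 0 ∧ N v + ε = z + c) := by
      intro z hz
      obtain ⟨y, hy⟩ := hN z hz
      obtain ⟨x1, hx1, x2, hx2, v, hv, rfl⟩ := dec y
      obtain ⟨ε, hε, eε⟩ := Ntau x2
      have h1 : z = N (x1 + x2) + (N v + ε) := by
        rw [← hy, map_add, map_add, eε, map_add]; abel
      have hx : x1 + x2 ∈ A1 := A1.add_mem hx1 hx2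
      have h2 : s (N (x1 + x2) + (N v + ε)) = s (N (x1 + x2)) + s (N v + ε) := by
        rcases hε with rfl | rfl
        · rw [add_zero]; exact (iv _ hx v hv).1
        · exact (iv _ hx v hv).2
      obtain ⟨b1, hb1, c1, hc1, e1⟩ := hBC.exists_add (N (x1 + x2))
      obtain ⟨b3, hb3, c3, hc3, e3⟩ := hBC.exists_add (N v + ε)
      rw [← h1] at h2
      rw [e1, e3] at h1
      rw [e1, e3, sBC _ hb1 _ hc1, sBC _ hb3 _ hc3] at h2
      have h3 : z + 0 = (b1 + b3) + (c1 + c3) := by rw [add_zero, h1]; abel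
      obtain ⟨h4, h5⟩ := hBC.comp_eq hz (B.add_mem hb1 hb3) C.zero_mem (C.add_mem hc1 hc3) h3
      have h6 := hs.add_le b1 b3
      rw [← h4] at h6
      have h7 : s (b1 + b3) = s b1 + s b3 := by rw [← h4]; omega
      have h8 : s c1 = 0 := by rw [h4, h7] at h2; omega
      have h9 : s c3 = 0 := by rw [h4, h7] at h2; omega
      rcases hBC.oe b1 hb1 b3 hb3 h7 with h10 | h10
      · right
        exact ⟨v, hv, ε, hε, c3, h9, by rw [e3, h4, h10, zero_add]⟩
      · left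
        exact ⟨x1 + x2, hx, c1, h8, by rw [e1, h4, h10, add_zero]⟩
    -- the second alternative fails for the norm of `y₀`
    have hy0 : y₀ ∈ A1 := ⟨hA0, hW0⟩
    have no : ¬ ∃ v ∈ A3, ∃ ε : V, (ε = 0 ∨ ε = u) ∧ ∃ c, s c = 0 ∧ N v + ε = N y₀ + c := by
      rintro ⟨v, hv, ε, hε, c, hc, e⟩
      have h1 : s (N y₀ + (N v + ε)) = s (N y₀) + s (N v + ε) := by
        rcases hε with rfl | rfl
        · rw [add_zero]; exact (iv _ hy0 v hv).1
        · exact (iv _ hy0 v hv).2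
      rw [e, add_self_left, hs.add_rad hc, hc] at h1
      apply h0
      exact hBC.rad hs hB0 (by omega)
    -- hence the first alternative always holds
    have first : ∀ z ∈ B, ∃ x ∈ A1, ∃ c, s c = 0 ∧ N x = z + c := by
      intro z hz
      rcases alt z hz with h | ⟨v, hv, ε, hε, c, hc, e⟩
      · exact h
      · rcases alt (z + N y₀) (B.add_mem hz hB0) with ⟨x, hx, c', hc', e'⟩ | ⟨v', hv', ε', hε', c', hc', e'⟩
        · refine ⟨x + y₀, A1.add_mem hx hy0, c', hc', ?_⟩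
          rw [map_add, e']
          have : z + N y₀ + c' + N y₀ = z + c' + (N y₀ + N y₀) := by abel
          rw [this, self_add, add_zero]
        · exfalso
          apply no
          refine ⟨v + v', A3.add_mem hv hv', ε + ε', ?_, c + c', ?_, ?_⟩
          · rcases hε with rfl | rfl <;> rcases hε' with rfl | rfl
            · left; rw [add_zero]
            · right; rw [zero_add]
            · right; rw [add_zero]
            · left; rw [self_add]
          · rw [hs.add_rad hc', hc]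
          · rw [map_add]
            have h1 : N v + N v' + (ε + ε') = (N v + ε) + (N v' + ε') := by abel
            rw [h1, e, e']
            have h2 : z + c + (z + N y₀ + c') = (z + z) + (N y₀ + (c + c')) := by abel
            rw [h2, self_add, zero_add]
    intro z hz
    obtain ⟨x, hx, c, hc, e⟩ := first z hz
    obtain ⟨w, hw, ew⟩ := X.rn c hc
    refine ⟨x + w, A1.add_mem hx (radA1 w hw), ?_⟩
    rw [map_add, e, ew, add_assoc, self_add, add_zero]
  -- the new block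
  obtain ⟨B', hB'1, hB'2⟩ : ∃ B' : Submodule (ZMod 2) V', B' ≤ A1 ⊓ B.comap N ∧
      (∀ x ∈ B', N x = 0 → x = 0) ∧ ∀ b ∈ B, ∃ x ∈ B', N x = b := by
    let P : Submodule (ZMod 2) V' := A1 ⊓ B.comap N
    obtain ⟨Q, hQ⟩ := Submodule.exists_isCompl (LinearMap.ker (N.domRestrict P))
    refine ⟨Q.map P.subtype, Submodule.map_subtype_le _ _, ?_, ?_⟩
    · rintro _ ⟨y, hy, rfl⟩ h
      have h1 : y ∈ LinearMap.ker (N.domRestrict P) := by
        rw [LinearMap.mem_ker]; exact h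
      have h2 := Submodule.disjoint_def.1 hQ.disjoint y h1 hy
      rw [h2]; rfl
    · intro b hb
      obtain ⟨x, hx, e⟩ := hsurj b hb
      have hxP : x ∈ P := ⟨hx, by
        show N x ∈ B
        rw [e]; exact hb⟩
      obtain ⟨k, hk, q, hq, h1⟩ := Submodule.mem_sup.1
        (show (⟨x, hxP⟩ : P) ∈ LinearMap.ker (N.domRestrict P) ⊔ Q by
          rw [hQ.sup_eq_top]; exact Submodule.mem_top)
      refine ⟨q, ⟨q, hq, rfl⟩, ?_⟩
      have h2 : N (k : V') + N (q : V') = N x := by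
        rw [← map_add]
        exact congrArg (fun z : P => N (z : V')) h1
      have h3 : N (k : V') = 0 := by
        rw [LinearMap.mem_ker] at hk; exact hk
      rw [h3, zero_add, e] at h2
      exact h2
  obtain ⟨hinj, hsurj'⟩ := hB'2
  have hB'A : ∀ x ∈ B', x ∈ A1 := fun x hx => (hB'1 hx).1
  have hB'N : ∀ x ∈ B', N x ∈ B := fun x hx => (hB'1 hx).2
  -- its complement
  let C1 : Submodule (ZMod 2) V' := A1 ⊓ C.comap N
  let C' : Submodule (ZMod 2) V' := C1 ⊔ (A1.map τ ⊔ A3)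
  have mC' : ∀ x, x ∈ C' ↔ ∃ x1, (x1 ∈ A1 ∧ N x1 ∈ C) ∧ ∃ x2 ∈ A1, ∃ v ∈ A3,
      x = x1 + τ x2 + v := by
    intro x
    rw [Submodule.mem_sup]
    constructor
    · rintro ⟨x1, hx1, y, hy, rfl⟩
      obtain ⟨_, ⟨x2, hx2, rfl⟩, v, hv, rfl⟩ := Submodule.mem_sup.1 hy
      exact ⟨x1, ⟨hx1.1, hx1.2⟩, x2, hx2, v, hv, by rw [add_assoc]⟩
    · rintro ⟨x1, ⟨hx1, hx1'⟩, x2, hx2, v, hv, rfl⟩
      exact ⟨x1, ⟨hx1, hx1'⟩, τ x2 + v, Submodule.mem_sup.2 ⟨τ x2, ⟨x2, hx2, rfl⟩, v, hv, rfl⟩,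
        by rw [add_assoc]⟩
  have addBC : ∀ b ∈ B', ∀ c ∈ C', t (b + c) = t b + t c := by
    intro b hb c hc
    obtain ⟨x1, ⟨hx1, hx1'⟩, x2, hx2, v, hv, rfl⟩ := (mC' c).1 hc
    have e1 : b + (x1 + τ x2 + v) = (b + x1) + τ x2 + v := by abel
    rw [e1, tadd _ (A1.add_mem (hB'A b hb) hx1) _ hx2 _ hv, tadd _ hx1 _ hx2 _ hv,
      ← sN _ (A1.add_mem (hB'A b hb) hx1), map_add, sBC _ (hB'N b hb) _ hx1',
      sN _ (hB'A b hb), sN _ hx1]
    ring
  have hN0 : ∀ x ∈ B', t x = 0 → x = 0 := by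
    intro x hx h
    apply hinj x hx
    apply hBC.rad hs (hB'N x hx)
    rw [sN x (hB'A x hx), h]
  refine ⟨B', C', ⟨?_, addBC, ?_⟩, ?_, hB'N, hsurj', hinj, ?_, fun x hx y hy =>
    ind1 x (hB'A x hx) y (hB'A y hy)⟩
  · constructor
    · rw [Submodule.disjoint_def]
      intro x hx hx'
      apply hN0 x hx
      have h1 := addBC x hx x hx'
      rw [self_add, ht.zero] at h1
      omega
    · rw [codisjoint_iff, eq_top_iff]
      intro x _
      obtain ⟨x1, hx1, x2, hx2, v, hv, rfl⟩ := dec x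
      obtain ⟨b, hb, c, hc, e⟩ := hBC.exists_add (N x1)
      obtain ⟨x', hx', e'⟩ := hsurj' b hb
      refine Submodule.mem_sup.2 ⟨x', hx', (x' + x1) + τ x2 + v, (mC' _).2
        ⟨x' + x1, ⟨A1.add_mem (hB'A x' hx') hx1, ?_⟩, x2, hx2, v, hv, rfl⟩, ?_⟩
      · rw [map_add, e', e, add_self_left]; exact hc
      · have : x' + (x' + x1 + τ x2 + v) = x' + (x' + (x1 + τ x2 + v)) := by abel
        rw [this, add_self_left]
  · intro x hx y hy h
    have h1 : s (N x + N y) = s (N x) + s (N y) := by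
      rw [← map_add, sN _ (A1.add_mem (hB'A x hx) (hB'A y hy)), h, sN _ (hB'A x hx),
        sN _ (hB'A y hy)]
    rcases hBC.oe _ (hB'N x hx) _ (hB'N y hy) h1 with h3 | h3
    · left; exact hinj x hx h3
    · right; exact hinj y hy h3
  · -- restrictions of the complement
    intro c hc
    obtain ⟨x, hx, x', hx', v, hv, e⟩ := dec (r c)
    have h1 : t (x + x') = 0 := by
      have h3 : (x + x') + τ (x + x') + (v + τ v) = 0 := by
        have h4 := X.tau_r c
        rw [e, map_add, map_add, X.tau_tau] at h4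
        have h5 : (x + τ x' + v) + (τ x + x' + τ v) = 0 := by rw [h4, self_add]
        rw [← h5, map_add]; abel
      have h4 := tadd _ (A1.add_mem hx hx') _ (A1.add_mem hx hx') _ (A3.add_mem hv (A3tau v hv))
      rw [h3, ht.zero] at h4
      omega
    -- r c = r (N x) + v'
    set ρ := τ (x + x') with hρ
    have hρ0 : t ρ = 0 := by rw [hρ, t_tau, h1]
    have e1 : r c = r (N x) + (ρ + v) := by
      rw [e, X.r_N, hρ, map_add]
      have : x + τ x + (τ x + τ x' + v) = x + (τ x + (τ x + (τ x' + v))) := by abel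
      rw [this, add_self_left, add_assoc]
    have hv' : ρ + v ∈ A3 := A3.add_mem (radA3 _ hρ0) hv
    obtain ⟨b1, hb1, c1, hc1, en⟩ := hBC.exists_add (N x)
    have e2 : ρ + v = r (c + N x) := by
      rw [map_add, e1, add_comm (r (N x)) (ρ + v), add_assoc, self_add, add_zero]
    have h3 : t (r c) = t (r (N x)) + t (r (c + N x)) := by
      rw [← e2, e1, X.r_N, tadd x hx x hx _ hv', ind1 x hx x hx, t_tau]
    have h4 := X.step (N x)
    have h5 := X.step (c + N x)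
    have h6 := X.step c1
    have h7 := X.step (c + c1)
    have h8 : t (r c) ≤ t (r c1) + t (r (c + c1)) := by
      have : r c = r c1 + r (c + c1) := by
        rw [← map_add, add_comm c c1, add_self_left]
      rw [this]
      exact ht.add_le _ _
    have h9 : s (N x) = s b1 + s c1 := by rw [en, sBC _ hb1 _ hc1]
    have h10 : s (N x + u) = s b1 + s (c1 + u) := by
      rw [en, add_assoc, sBC _ hb1 _ (C.add_mem hc1 hu)]
    have h11 : s (c + N x) = s b1 + s (c + c1) := by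
      rw [en, show c + (b1 + c1) = b1 + (c + c1) by abel, sBC _ hb1 _ (C.add_mem hc hc1)]
    have h12 : s (c + N x + u) = s b1 + s (c + c1 + u) := by
      rw [en, show c + (b1 + c1) + u = b1 + (c + c1 + u) by abel,
        sBC _ hb1 _ (C.add_mem (C.add_mem hc hc1) hu)]
    have h13 : s b1 = 0 := by omega
    have h14 : b1 = 0 := hBC.rad hs hb1 h13
    refine (mC' _).2 ⟨x, ⟨hx, ?_⟩, x', hx', v, hv, e⟩
    rw [en, h14, zero_add]; exact hc1
  · intro x hx
    exact (mC' _).2 ⟨0, ⟨A1.zero_mem, by rw [map_zero]; exact C.zero_mem⟩, x, hB'A x hx, 0,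
      A3.zero_mem, by rw [zero_add, add_zero]⟩

end

end Pool.Agent.Hhelper69.Blk
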