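import Pool.Agent.KRad.BiquadIn

/-!
# Biquadratic extensions over a given quadratic extension
-/

namespace Pool.Agent.Hhelper69.Blk

open Pool.Agent.Hhelper2 Pool.Agent.Hhelper2.QuadExt Pool.Agent.Hhelper2.Tower Additive Module
open Pool.Agent.Hhelper2.FieldAx
open Pool.Agent.KRad Pool.Agent.KRad.Biquad

universe u

/-- The norm identity in a biquadratic extension. -/
lemma norm_identity' {K E₁ E₂ E₃ E : Type u} [Field K] [Field E₁] [Field E₂] [Field E₃] [Field E]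
    [Algebra K E₁] [Algebra K E₂] [Algebra K E₃] [Algebra K E] [Algebra E₁ E] [Algebra E₂ E]
    [Algebra E₃ E] [IsScalarTower K E₁ E] [IsScalarTower K E₂ E] [IsScalarTower K E₃ E]
    [FiniteDimensional K E₁] [FiniteDimensional E₁ E]
    (b₀ c₀ : Kˣ) {β γ : E}
    (hβ : β ^ 2 = algebraMap K E b₀) (hγ : γ ^ 2 = algebraMap K E c₀)
    (γ₁ : E₁) (hγ₁ : algebraMap E₁ E γ₁ = γ) (β₂ : E₂) (hβ₂ : algebraMap E₂ E β₂ = β)
    (δ₃ : E₃) (hδ₃ : algebraMap E₃ E δ₃ = β * γ)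
    (k1 : finrank K E₁ = 2) (f1 : finrank E₁ E = 2) (f2 : finrank E₂ E = 2)
    (f3 : finrank E₃ E = 2) (nc : ¬ ∃ t : K, (c₀ : K) = t ^ 2)
    (n1 : ¬ ∃ t : E₁, algebraMap K E₁ b₀ = t ^ 2) (n2 : ¬ ∃ t : E₂, algebraMap K E₂ c₀ = t ^ 2)
    (n3 : ¬ ∃ t : E₃, algebraMap K E₃ b₀ = t ^ 2) (r : E) :
    algebraMap E₁ E (Algebra.norm E₁ r) * algebraMap E₂ E (Algebra.norm E₂ r) *
      algebraMap E₃ E (Algebra.norm E₃ r) = algebraMap K E (Algebra.norm K r) * r ^ 2 := by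
  have hβ0 : β ≠ 0 := by
    rintro rfl
    apply b₀.ne_zero
    apply (algebraMap K E).injective
    rw [← hβ, map_zero]; ring
  have t1 : ∀ x : K, algebraMap E₁ E (algebraMap K E₁ x) = algebraMap K E x := fun x =>
    (IsScalarTower.algebraMap_apply K E₁ E x).symm
  have t2 : ∀ x : K, algebraMap E₂ E (algebraMap K E₂ x) = algebraMap K E x := fun x =>
    (IsScalarTower.algebraMap_apply K E₂ E x).symm
  have t3 : ∀ x : K, algebraMap E₃ E (algebraMap K E₃ x) = algebraMap K E x := fun x =>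
    (IsScalarTower.algebraMap_apply K E₃ E x).symm
  obtain ⟨c1, m1⟩ := coords f1 (algebraMap K E₁ b₀) β (by rw [hβ, t1]) n1
  obtain ⟨-, m2⟩ := coords f2 (algebraMap K E₂ c₀) γ (by rw [hγ, t2]) n2
  obtain ⟨-, m3⟩ := coords f3 (algebraMap K E₃ b₀) β (by rw [hβ, t3]) n3
  obtain ⟨c0, m0⟩ := coords k1 (c₀ : K) γ₁ (by
    apply (algebraMap E₁ E).injective
    rw [map_pow, hγ₁, hγ, t1]) nc
  obtain ⟨s, t, hst⟩ := c1 r
  obtain ⟨x0, x1, hs⟩ := c0 s
  obtain ⟨x2, x3, ht⟩ := c0 t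
  have e1 : algebraMap E₁ E (Algebra.norm E₁ r) =
      (algebraMap K E x0 + algebraMap K E x1 * γ) ^ 2 -
        β ^ 2 * (algebraMap K E x2 + algebraMap K E x3 * γ) ^ 2 := by
    rw [hst, m1, hs, ht, hβ]
    simp only [map_sub, map_pow, map_mul, map_add, t1, hγ₁]
  have hr : r = algebraMap K E x0 + algebraMap K E x1 * γ +
      (algebraMap K E x2 + algebraMap K E x3 * γ) * β := by
    rw [hst, hs, ht]
    simp only [map_mul, map_add, t1, hγ₁]
  have e2 : algebraMap E₂ E (Algebra.norm E₂ r) =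
      (algebraMap K E x0 + algebraMap K E x2 * β) ^ 2 -
        γ ^ 2 * (algebraMap K E x1 + algebraMap K E x3 * β) ^ 2 := by
    have : r = algebraMap E₂ E (algebraMap K E₂ x0 + algebraMap K E₂ x2 * β₂) +
        algebraMap E₂ E (algebraMap K E₂ x1 + algebraMap K E₂ x3 * β₂) * γ := by
      rw [hr]
      simp only [map_mul, map_add, t2, hβ₂]
      ring
    rw [this, m2, hγ]
    simp only [map_sub, map_pow, map_mul, map_add, t2, hβ₂]
  have e3 : algebraMap E₃ E (Algebra.norm E₃ r) =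
      (algebraMap K E x0 + algebraMap K E x3 * (β * γ)) ^ 2 -
        β ^ 2 * (algebraMap K E x2 + algebraMap K E x1 * (β ^ 2)⁻¹ * (β * γ)) ^ 2 := by
    have hinv : algebraMap K E ((b₀ : K)⁻¹) = (β ^ 2)⁻¹ := by rw [map_inv₀, hβ]
    have : r = algebraMap E₃ E (algebraMap K E₃ x0 + algebraMap K E₃ x3 * δ₃) +
        algebraMap E₃ E (algebraMap K E₃ x2 +
          algebraMap K E₃ x1 * algebraMap K E₃ ((b₀ : K)⁻¹) * δ₃) * β := by
      rw [hr]
      simp only [map_mul, map_add, t3, hδ₃]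
      rw [hinv]
      field_simp
      ring
    rw [this, m3, ← hinv, hβ]
    simp only [map_sub, map_pow, map_mul, map_add, t3, hδ₃]
  have e0 : algebraMap K E (Algebra.norm K r) =
      (algebraMap K E x0 ^ 2 + γ ^ 2 * algebraMap K E x1 ^ 2 - β ^ 2 * algebraMap K E x2 ^ 2 -
        β ^ 2 * γ ^ 2 * algebraMap K E x3 ^ 2) ^ 2 -
      γ ^ 2 * (2 * algebraMap K E x0 * algebraMap K E x1 -
        2 * β ^ 2 * algebraMap K E x2 * algebraMap K E x3) ^ 2 := by
    have h1 : Algebra.norm E₁ r = algebraMap K E₁ (x0 ^ 2 + c₀ * x1 ^ 2 - b₀ * x2 ^ 2 -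
        b₀ * c₀ * x3 ^ 2) + algebraMap K E₁ (2 * x0 * x1 - 2 * b₀ * x2 * x3) * γ₁ := by
      apply (algebraMap E₁ E).injective
      rw [e1]
      simp only [map_add, map_sub, map_mul, map_pow, map_ofNat, t1, hγ₁, ← hβ, ← hγ]
      ring
    rw [← Algebra.norm_norm (S := E₁), h1, m0]
    simp only [map_add, map_sub, map_mul, map_pow, map_ofNat, ← hβ, ← hγ]
  rw [e1, e2, e3, e0]
  rw [hr]
  field_simp
  ring

/-- Norms of elements of another quadratic subextension. -/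
lemma norm_res {K F₁ F₂ L : Type u} [Field K] [Field F₁] [Field F₂] [Field L] [Algebra K F₁]
    [Algebra K F₂] [Algebra K L] [Algebra F₁ L] [Algebra F₂ L] [IsScalarTower K F₁ L]
    [IsScalarTower K F₂ L] (d : K) (δ : F₂) (hδ : δ ^ 2 = algebraMap K F₂ d)
    (k2 : finrank K F₂ = 2) (hd : ¬ ∃ t : K, d = t ^ 2) (f1 : finrank F₁ L = 2)
    (hd1 : ¬ ∃ t : F₁, algebraMap K F₁ d = t ^ 2) (w : F₂) :
    Algebra.norm F₁ (algebraMap F₂ L w) = algebraMap K F₁ (Algebra.norm K w) := by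
  obtain ⟨c, m⟩ := coords k2 d δ hδ hd
  have t2 : ∀ x : K, algebraMap F₂ L (algebraMap K F₂ x) = algebraMap F₁ L (algebraMap K F₁ x) :=
    fun x => by
      rw [← IsScalarTower.algebraMap_apply K F₂ L, ← IsScalarTower.algebraMap_apply K F₁ L]
  obtain ⟨-, m1⟩ := coords f1 (algebraMap K F₁ d) (algebraMap F₂ L δ) (by
    rw [← map_pow, hδ, t2]) hd1
  obtain ⟨x, y, rfl⟩ := c w
  rw [m, map_add, map_mul, t2, t2, m1]
  simp only [map_sub, map_pow, map_mul]

lemma gnm_gres {K F₁ F₂ L : Type u} [Field K] [Field F₁] [Field F₂] [Field L] [Algebra K F₁]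
    [Algebra K F₂] [Algebra K L] [Algebra F₁ L] [Algebra F₂ L] [IsScalarTower K F₁ L]
    [IsScalarTower K F₂ L] (d : K) (δ : F₂) (hδ : δ ^ 2 = algebraMap K F₂ d)
    (k2 : finrank K F₂ = 2) (hd : ¬ ∃ t : K, d = t ^ 2) (f1 : finrank F₁ L = 2)
    (hd1 : ¬ ∃ t : F₁, algebraMap K F₁ d = t ^ 2) (w : SqClass F₂) :
    gnm F₁ L (gres F₂ L w) = gres K F₁ (gnm K F₂ w) := by
  obtain ⟨w, rfl⟩ := exists_rep w
  rw [gres_mk, gnm_mk, gnm_mk, gres_mk]
  congr 1
  ext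
  exact norm_res d δ hδ k2 hd f1 hd1 (w : F₂)

/-- The biquadratic extension `L = E(√b)` of a quadratic extension `E = K(√a)`. -/
theorem exists_biquad {K E : Type u} [Field K] [Field E] [Algebra K E] (h2 : (2 : K) ≠ 0)
    (hfin : finrank K E = 2) (a b : Kˣ) (α : E) (hα : α ^ 2 = algebraMap K E a)
    (hns : ¬ ∃ t : K, (a : K) = t ^ 2) (hb : sqClass b ≠ 1) (hba : sqClass b ≠ sqClass a)
    (q : QL K E (sqClass a)) (hq : q.res = gres K E) (hq' : q.nm = gnm K E) :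
    ∃ (F G L : Type u) (_ : Field F) (_ : Field G) (_ : Field L)
      (qF : QL K F (sqClass b)) (qG : QL K G (sqClass b * sqClass a))
      (p : QL E L (q.res (sqClass b))) (pF : QL F L (qF.res (sqClass a)))
      (pG : QL G L (qG.res (sqClass b))),
      (∀ x, p.res (q.res x) = pF.res (qF.res x)) ∧ (∀ x, p.res (q.res x) = pG.res (qG.res x)) ∧
      (∀ r, q.nm (p.nm r) = qF.nm (pF.nm r)) ∧ (∀ r, q.nm (p.nm r) = qG.nm (pG.nm r)) ∧
      (∀ r, p.res (p.nm r) * pF.res (pF.nm r) * pG.res (pG.nm r) = p.res (q.res (q.nm (p.nm r)))) ∧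
      (∀ w, p.nm (pF.res w) = q.res (qF.nm w)) ∧ (∀ w, pG.nm (pF.res w) = qG.res (qF.nm w)) ∧
      (∀ w, pG.nm (p.res w) = qG.res (q.nm w)) ∧ (∀ w, pF.nm (p.res w) = qF.res (q.nm w)) := by
  have hnb : ¬ ∃ t : K, (b : K) = t ^ 2 := fun h => hb ((one_iff b).2 h)
  have hfd : FiniteDimensional K E := FiniteDimensional.of_finrank_pos (by rw [hfin]; norm_num)
  have hnbE : ¬ ∃ t : E, algebraMap K E (b : K) = t ^ 2 := by
    intro h
    have h1 : q.res (sqClass b) = 1 := by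
      rw [hq, gres_mk, one_iff]
      exact h
    rcases (q.res_one _).1 h1 with h3 | h3
    · exact hb h3
    · exact hba h3
  -- the big field
  obtain ⟨L, _, _, _, _, β, hfL, hβ⟩ : ∃ (L : Type u) (_ : Field L) (_ : Algebra E L)
      (_ : Algebra K L) (_ : IsScalarTower K E L) (β : L), finrank E L = 2 ∧
      β ^ 2 = algebraMap K L b := by
    have hf2 : Fact (∀ r : E, r ^ 2 ≠ algebraMap K E (b : K) + 0 * r) :=
      ⟨fun r hr => hnbE ⟨r, by rw [hr]; ring⟩⟩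
    refine ⟨QuadraticAlgebra E (algebraMap K E (b : K)) 0, inferInstance, inferInstance,
      inferInstance, inferInstance, ⟨0, 1⟩, QuadraticAlgebra.finrank_eq_two .., ?_⟩
    rw [← elt_sqrt (a := algebraMap K E (b : K)) 1, one_pow, mul_one]
    rfl
  have hfd2 : FiniteDimensional E L := FiniteDimensional.of_finrank_pos (by rw [hfL]; norm_num)
  have hfdL : FiniteDimensional K L := FiniteDimensional.trans K E L
  have hfin4 : finrank K L = 4 := by
    rw [← finrank_mul_finrank K E L, hfin, hfL]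
  have tE : ∀ x : K, algebraMap E L (algebraMap K E x) = algebraMap K L x := fun x =>
    (IsScalarTower.algebraMap_apply K E L x).symm
  set γ := algebraMap E L α with hγdef
  have hγ : γ ^ 2 = algebraMap K L a := by rw [hγdef, ← map_pow, hα, tE]
  have hba1 : sqClass (b * a) ≠ 1 := fun h => hba ((eq_iff_mul _ _).2 h)
  have hnba : ¬ ∃ t : K, ((b * a : Kˣ) : K) = t ^ 2 := fun h => hba1 ((one_iff (b * a)).2 h)
  have hδ : (β * γ) ^ 2 = algebraMap K L ((b * a : Kˣ) : K) := by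
    rw [mul_pow, hβ, hγ, ← map_mul]
    rfl
  have k2 := finrank_adjoin (b : K) β hβ hnb
  have k3 := finrank_adjoin ((b * a : Kˣ) : K) (β * γ) hδ hnba
  have hβ₂ : β ∈ IntermediateField.adjoin K {β} := IntermediateField.mem_adjoin_simple_self K β
  have hδ₃ : β * γ ∈ IntermediateField.adjoin K {β * γ} :=
    IntermediateField.mem_adjoin_simple_self K (β * γ)
  generalize IntermediateField.adjoin K {β} = F at k2 hβ₂
  generalize IntermediateField.adjoin K {β * γ} = G at k3 hδ₃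
  have ff : ∀ F : IntermediateField K L, finrank K F = 2 → finrank F L = 2 := by
    intro F hF
    have := finrank_mul_finrank K F L
    rw [hF, hfin4] at this
    omega
  have hβF : (⟨β, hβ₂⟩ : F) ^ 2 = algebraMap K F b := by ext; exact hβ
  have hδG : (⟨β * γ, hδ₃⟩ : G) ^ 2 = algebraMap K G ((b * a : Kˣ) : K) := by ext; exact hδ
  obtain ⟨q₂, r₂, s₂⟩ := exists_QL h2 k2 b ⟨β, hβ₂⟩ hβF hnb
  obtain ⟨q₃, r₃, s₃⟩ := exists_QL h2 k3 (b * a) ⟨β * γ, hδ₃⟩ hδG hnba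
  have ha1 : sqClass a ≠ 1 := fun h => hns ((one_iff a).1 h)
  obtain ⟨⟨p₁, u₁, v₁⟩, n1⟩ := upper q hq b hb hba hfL β hβ
  obtain ⟨⟨p₂, u₂, v₂⟩, n2⟩ := upper q₂ r₂ a ha1 (Ne.symm hba) (ff _ k2) γ hγ
  obtain ⟨⟨p₃, u₃, v₃⟩, n3⟩ := upper q₃ r₃ b hb (by
    intro h
    apply ha1
    have h' : sqClass b * sqClass a = sqClass b := h.symm
    exact mul_eq_left.1 h') (ff _ k3) β hβ
  -- the class of `a` is not trivial in `G`
  have n3' : ¬ ∃ t : G, algebraMap K G (a : K) = t ^ 2 := by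
    intro h
    have h1 : q₃.res (sqClass a) = 1 := by
      rw [r₃, gres_mk, one_iff]
      exact h
    rcases (q₃.res_one _).1 h1 with h3 | h3
    · exact ha1 h3
    · apply hb
      have h' : sqClass b * sqClass a = sqClass a := h3.symm
      exact mul_eq_right.1 h'
  refine ⟨F, G, L, inferInstance, inferInstance, inferInstance, q₂, q₃, p₁, p₂, p₃,
    ?_, ?_, ?_, ?_, ?_, ?_, ?_, ?_, ?_⟩
  · intro x
    rw [u₁, hq, u₂, r₂, gres_gres, gres_gres]
  · intro x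
    rw [u₁, hq, u₃, r₃, gres_gres, gres_gres]
  · intro x
    rw [v₁, hq', v₂, s₂, gnm_gnm, gnm_gnm]
  · intro x
    rw [v₁, hq', v₃, s₃, gnm_gnm, gnm_gnm]
  · intro x
    rw [v₁, hq', v₂, v₃, gnm_gnm, u₁, u₂, u₃, hq, gres_gres]
    obtain ⟨x, rfl⟩ := exists_rep x
    symm
    rw [gnm_mk, gnm_mk, gnm_mk, gnm_mk, gres_mk, gres_mk, gres_mk, gres_mk,
      ← QuotientGroup.mk_mul, ← QuotientGroup.mk_mul, sqClass_eq]
    refine ⟨x, ?_⟩
    ext
    exact norm_identity' b a hβ hγ α rfl (⟨β, hβ₂⟩ : F) rfl (⟨β * γ, hδ₃⟩ : G) rfl hfin hfL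
      (ff _ k2) (ff _ k3) hns n1 n2 n3 (x : L)
  · intro w
    rw [v₁, u₂, hq, s₂]
    exact gnm_gres (b : K) ⟨β, hβ₂⟩ hβF k2 hnb hfL n1 w
  · intro w
    rw [v₃, u₂, r₃, s₂]
    exact gnm_gres (b : K) ⟨β, hβ₂⟩ hβF k2 hnb (ff _ k3) n3 w
  · intro w
    rw [v₃, u₁, r₃, hq']
    exact gnm_gres (a : K) α hα hfin hns (ff _ k3) n3' w
  · intro w
    rw [v₂, u₁, r₂, hq']
    exact gnm_gres (a : K) α hα hfin hns (ff _ k2) n2 w

end Pool.Agent.Hhelper69.Blk
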