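import Pool.Agent.Hhelper69.BlkAbs
import Pool.Agent.Hhelper69.BlkBiquad
import Pool.Agent.KRad.GoUpC

/-!
# The block step

Let `S_K` be the direct product of a block (without independent classes) and a complement, and let
`E = K(√a)` with `a` in the complement.  Then the block is also a block of `S_E`.
-/

namespace Pool.Agent.Hhelper69.Blk

open Pool.Agent.Hhelper2 Pool.Agent.Hhelper2.QuadExt Pool.Agent.Hhelper2.Tower Additive Module
open Pool.Agent.Hhelper2.FieldAx
open Pool.Agent.KRad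

universe u

/-- A block decomposition of the square classes of a field. -/
def IsBlk (K : Type u) [Field K] (B C : Submodule (ZMod 2) (VV K)) : Prop :=
  IsCompl B C ∧ (∀ b ∈ B, ∀ c ∈ C, sv K (b + c) = sv K b + sv K c) ∧
    ∀ x ∈ B, ∀ y ∈ B, sv K (x + y) = sv K x + sv K y → x = 0 ∨ y = 0

lemma sub_sv {K : Type u} [Field K] (h2 : (2 : K) ≠ 0) [Finite (SqClass K)] :
    Sub (fun x : VV K => sv K x) := ⟨sv_zero h2, sv_add_le h2⟩

lemma IsBlk.abs {K : Type u} [Field K] {B C : Submodule (ZMod 2) (VV K)} (h : IsBlk K B C) :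
    BlkAbs (fun x : VV K => sv K x) B C := ⟨h.1, h.2.1, h.2.2⟩

/-- The norm of a class which is independent of its conjugate. -/
theorem sv_nm {K E : Type u} [Field K] [Field E] {a : SqClass K} (q : QS K E a)
    (h2 : (2 : K) ≠ 0) [Finite (SqClass K)] (x : VV E)
    (h : sv E (x + lin q.sg x) = sv E x + sv E (lin q.sg x)) : sv K (lin q.nm x) = sv E x := by
  have := finite_ext q.toQE
  obtain ⟨Q, _, _, _, β, hβ, symm, -⟩ := exists_symbol K h2
  obtain ⟨QE', _, _, _, βE, hβE, symmE, -⟩ := exists_symbol E q.two_ne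
  set n := lin q.nm x with hn
  -- values on classes of the base field
  have h1 : ∀ v : VV K, βE x (lin q.res v) = 0 ↔ β n v = 0 := by
    intro v
    constructor
    · intro h3
      rw [symmE, hβE] at h3
      rw [symm, hβ]
      exact q.proj _ _ h3
    · intro h3
      rw [symm, hβ] at h3
      obtain ⟨t, ht⟩ := q.principle (toMul v) (toMul x) h3
      have h4 : Sp E (lin q.res v) (x + lin q.res (ofMul t)) := ht
      have h5 := sg_sp q h4
      rw [map_add, sg_res', sg_res'] at h5
      rw [← hβE, map_add] at h4 h5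
      have h6 : βE (lin q.res v) x = βE (lin q.res v) (lin q.sg x) := by
        rw [Codim.eq_of_add_eq_zero h4, Codim.eq_of_add_eq_zero h5]
      have h7 := disjoint_range hβE h
      rw [Submodule.disjoint_def] at h7
      exact h7 _ ⟨lin q.res v, rfl⟩ ⟨lin q.res v, by rw [symmE, ← h6, symmE]⟩
  -- all values come from the base field
  obtain ⟨μ, hμ⟩ := isCut_sv (K := E) q.two_ne
  obtain ⟨A, W, hxA, hxW, hsup, -, hAW⟩ := exists_splitting (sv E) ⟨μ, hμ⟩
    (fun m w b => split5 E q.two_ne m w b) x (lin q.sg x) h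
  have h3 : ∀ y : VV E, ∃ v : VV K, βE x y = βE x (lin q.res v) := by
    intro y
    obtain ⟨y₁, hy₁, y₂, hy₂, rfl⟩ := Submodule.mem_sup.1
      (show y ∈ A ⊔ W by rw [hsup]; exact Submodule.mem_top)
    refine ⟨lin q.nm y₁, ?_⟩
    have e1 : βE x y₂ = 0 := beta_of_indep hβE symmE (hAW x hxA y₂ hy₂)
    have e2 : βE y₁ (lin q.sg x) = 0 := beta_of_indep hβE symmE (hAW y₁ hy₁ _ hxW)
    have e3 : βE x (lin q.sg y₁) = 0 := by
      rw [symmE, hβE]
      have := sg_sp q ((hβE _ _).1 e2)
      rwa [sg_sg'] at this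
    rw [res_nm', map_add, map_add, e1, e3]
  symm
  rw [sv_eq_finrank_range βE hβE]
  have h5 : LinearMap.range (βE x) = LinearMap.range ((βE x).comp (lin q.res)) := by
    apply le_antisymm
    · rintro _ ⟨y, rfl⟩
      obtain ⟨v, hv⟩ := h3 y
      exact ⟨v, hv.symm⟩
    · rintro _ ⟨v, rfl⟩
      exact ⟨lin q.res v, rfl⟩
  have h6 : LinearMap.ker ((βE x).comp (lin q.res)) = LinearMap.ker (β n) := by
    ext v
    rw [LinearMap.mem_ker, LinearMap.mem_ker, LinearMap.comp_apply]
    exact h1 v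
  have h7 := LinearMap.finrank_range_add_finrank_ker ((βE x).comp (lin q.res))
  have h8 := sv_add_finrank_ker β hβ n
  rw [h5]
  rw [h6] at h7
  have h7' : finrank (ZMod 2) (LinearMap.range ((βE x).comp (lin q.res))) +
    finrank (ZMod 2) (LinearMap.ker (β n)) = finrank (ZMod 2) (VV K) := h7
  omega

/-- The data of a quadratic extension. -/
theorem ext_of_QS {K E : Type u} [Field K] [Field E] {a : SqClass K} (q : QS K E a)
    (h2 : (2 : K) ≠ 0) [Finite (SqClass K)] :
    Ext (fun x : VV K => sv K x) (fun x : VV E => sv E x) (lin q.res) (lin q.nm) (lin q.sg)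
      (ofMul a) := by
  have := finite_ext q.toQE
  refine ⟨sub_sv h2, sub_sv q.two_ne, sg_sg' q, sg_res' q, sv_sg q, res_nm' q, res_eq_zero q,
    sv_step h2 q.toQE, sv_nm q h2, ?_⟩
  intro c hc
  obtain ⟨z, hz, hz'⟩ := rn h2 q.toQL c ((sv_eq_zero_iff h2 c).1 hc)
  exact ⟨z, (sv_eq_zero_iff q.two_ne z).2 hz, hz'⟩

/-- Splitting of a class of the block in a quadratic extension. -/
theorem lemma_split {K E : Type u} [Field K] [Field E] [Algebra K E] (h2 : (2 : K) ≠ 0)
    [Finite (SqClass K)] (hfin : finrank K E = 2) (a : Kˣ) (α : E)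
    (hα : α ^ 2 = algebraMap K E a) (hns : ¬ ∃ t : K, (a : K) = t ^ 2)
    (q : QL K E (sqClass a)) (hq : q.res = gres K E) (hq' : q.nm = gnm K E)
    {B C : Submodule (ZMod 2) (VV K)} (h : IsBlk K B C) (ha : (ofMul (sqClass a) : VV K) ∈ C)
    (z : VV K) (hz : z ∈ B) (hz0 : z ≠ 0) :
    ∃ y : VV E, lin q.nm y = z ∧
      sv E (y + (y + lin q.res z)) = sv E y + sv E (y + lin q.res z) := by
  have hE := finite_ext q.toQE
  obtain ⟨b, hb⟩ := exists_rep (toMul z)
  have hbz : (ofMul (sqClass b) : VV K) = z := by rw [hb]; rfl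
  set u : VV K := ofMul (sqClass a) with hu
  have hu0 : u ≠ 0 := fun h => hns ((one_iff a).1 h)
  have H := h.abs
  have hs : Sub (fun x : VV K => sv K x) := sub_sv h2
  have huz : u ≠ z := by
    intro e
    apply hz0
    exact Submodule.disjoint_def.1 h.1.disjoint z hz (by rw [← e]; exact ha)
  have hb1 : sqClass b ≠ 1 := fun e => hz0 (by rw [← hbz, e]; rfl)
  have hba : sqClass b ≠ sqClass a := fun e => huz (by rw [← hbz, e])
  obtain ⟨F, G, L, _, _, _, qF, qG, p, pF, pG, r1, r3, m1, m3, tn, c1, c2, c3, c4⟩ :=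
    exists_biquad h2 hfin a b α hα hns hb1 hba q hq hq'
  have hF := finite_ext qF.toQE
  have hG := finite_ext qG.toQE
  have hL := finite_ext p.toQE
  -- additive notation
  have R1 : ∀ x : VV K, lin p.res (lin q.res x) = lin pF.res (lin qF.res x) :=
    fun x => r1 (toMul x)
  have R3 : ∀ x : VV K, lin p.res (lin q.res x) = lin pG.res (lin qG.res x) :=
    fun x => r3 (toMul x)
  have M1 : ∀ x : VV L, lin q.nm (lin p.nm x) = lin qF.nm (lin pF.nm x) := fun x => m1 (toMul x)
  have M3 : ∀ x : VV L, lin q.nm (lin p.nm x) = lin qG.nm (lin pG.nm x) := fun x => m3 (toMul x)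
  have TN : ∀ x : VV L, lin p.res (lin p.nm x) + lin pF.res (lin pF.nm x) +
      lin pG.res (lin pG.nm x) = lin p.res (lin q.res (lin q.nm (lin p.nm x))) :=
    fun x => tn (toMul x)
  have C1 : ∀ w : VV F, lin p.nm (lin pF.res w) = lin q.res (lin qF.nm w) := fun w => c1 (toMul w)
  have C2 : ∀ w : VV F, lin pG.nm (lin pF.res w) = lin qG.res (lin qF.nm w) :=
    fun w => c2 (toMul w)
  have C3 : ∀ w : VV E, lin pG.nm (lin p.res w) = lin qG.res (lin q.nm w) :=
    fun w => c3 (toMul w)
  have C4 : ∀ w : VV E, lin pF.nm (lin p.res w) = lin qF.res (lin q.nm w) :=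
    fun w => c4 (toMul w)
  have nq : ∀ x : VV K, lin q.nm (lin q.res x) = 0 := fun x => q.nm_res (toMul x)
  have nqF : ∀ x : VV K, lin qF.nm (lin qF.res x) = 0 := fun x => qF.nm_res (toMul x)
  have nqG : ∀ x : VV K, lin qG.nm (lin qG.res x) = 0 := fun x => qG.nm_res (toMul x)
  have npF : ∀ x : VV F, lin pF.nm (lin pF.res x) = 0 := fun x => pF.nm_res (toMul x)
  have kq : ∀ x : VV E, lin q.nm x = 0 → ∃ f : VV K, x = lin q.res f := by
    intro x hx
    obtain ⟨f, hf⟩ := q.ker_nm (toMul x) hx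
    exact ⟨ofMul f, hf⟩
  have kqF : ∀ x : VV F, lin qF.nm x = 0 → ∃ f : VV K, x = lin qF.res f := by
    intro x hx
    obtain ⟨f, hf⟩ := qF.ker_nm (toMul x) hx
    exact ⟨ofMul f, hf⟩
  have kp : ∀ x : VV L, lin p.nm x = 0 → ∃ f : VV E, x = lin p.res f := by
    intro x hx
    obtain ⟨f, hf⟩ := p.ker_nm (toMul x) hx
    exact ⟨ofMul f, hf⟩
  have zq : ∀ x : VV K, lin q.res x = 0 ↔ x = 0 ∨ x = u := fun x => q.res_one (toMul x)
  have zqF : ∀ x : VV K, lin qF.res x = 0 ↔ x = 0 ∨ x = z := by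
    intro x
    rw [← hbz]
    exact qF.res_one (toMul x)
  have zqG : ∀ x : VV K, lin qG.res x = 0 ↔ x = 0 ∨ x = z + u := by
    intro x
    rw [← hbz]
    exact qG.res_one (toMul x)
  have zp : ∀ x : VV E, lin p.res x = 0 ↔ x = 0 ∨ x = lin q.res z := by
    intro x
    rw [← hbz]
    exact p.res_one (toMul x)
  -- rank functions
  have Sq : ∀ x : VV K, sv E (lin q.res x) + sv K u = sv K x + sv K (x + u) :=
    fun x => sv_step h2 q.toQE x
  have SqF : ∀ x : VV K, sv F (lin qF.res x) + sv K z = sv K x + sv K (x + z) := by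
    intro x
    rw [← hbz]
    exact sv_step h2 qF.toQE x
  have SqG : ∀ x : VV K, sv G (lin qG.res x) + sv K (z + u) = sv K x + sv K (x + (z + u)) := by
    intro x
    rw [← hbz]
    exact sv_step h2 qG.toQE x
  have Sp' : ∀ x : VV E, sv L (lin p.res x) + sv E (lin q.res z) =
      sv E x + sv E (x + lin q.res z) := by
    intro x
    rw [← hbz]
    exact sv_step q.two_ne p.toQE x
  have SpF : ∀ x : VV F, sv L (lin pF.res x) + sv F (lin qF.res u) =
      sv F x + sv F (x + lin qF.res u) := fun x => sv_step qF.two_ne pF.toQE x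
  -- `z` is radical in `G`
  have hzG : sv G (lin qG.res z) = 0 := by
    have h3 := SqG z
    rw [add_self_left, h.2.1 z hz u ha] at h3
    omega
  obtain ⟨ρ, hρ, eρ⟩ := rn qG.two_ne pG (lin qG.res z) ((sv_eq_zero_iff qG.two_ne _).1 hzG)
  have hρ0 : sv L ρ = 0 := (sv_eq_zero_iff pG.two_ne ρ).2 hρ
  have N0 : lin qG.nm (lin pG.nm ρ) = 0 := by rw [eρ, nqG]
  obtain ⟨xu, exu⟩ := kq (lin p.nm ρ) (by rw [M3, N0])
  obtain ⟨xz, exz⟩ := kqF (lin pF.nm ρ) (by rw [← M1, M3, N0])
  have ru : sv E (lin q.res xu) = 0 := by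
    rw [← exu]
    exact (sv_eq_zero_iff q.two_ne _).2 (nm_radical q.two_ne p ρ hρ)
  have rz : sv F (lin qF.res xz) = 0 := by
    rw [← exz]
    exact (sv_eq_zero_iff qF.two_ne _).2 (nm_radical qF.two_ne pF ρ hρ)
  -- components
  obtain ⟨b1, hb1', c1', hc1', e1⟩ := H.exists_add xu
  obtain ⟨b3, hb3', c3', hc3', e3⟩ := H.exists_add xz
  have hxu : xu ∈ C := by
    have h3 := Sq xu
    rw [ru] at h3
    have h4 : sv K xu = sv K b1 + sv K c1' := by rw [e1, h.2.1 b1 hb1' c1' hc1']
    have h5 : sv K (xu + u) = sv K b1 + sv K (c1' + u) := by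
      rw [e1, add_assoc, h.2.1 b1 hb1' _ (C.add_mem hc1' ha)]
    have h6 : sv K u ≤ sv K c1' + sv K (c1' + u) := by
      have := sv_add_le h2 c1' (c1' + u)
      rwa [add_self_left] at this
    have h7 : b1 = 0 := H.rad hs hb1' (show sv K b1 = 0 by omega)
    rw [e1, h7, zero_add]
    exact hc1'
  have hxz : sv K c3' = 0 ∧ (b3 = 0 ∨ b3 = z) := by
    have h3 := SqF xz
    rw [rz] at h3
    have h4 : sv K xz = sv K b3 + sv K c3' := by rw [e3, h.2.1 b3 hb3' c3' hc3']
    have h5 : sv K (xz + z) = sv K (b3 + z) + sv K c3' := by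
      rw [e3, show b3 + c3' + z = (b3 + z) + c3' by abel,
        h.2.1 _ (B.add_mem hb3' hz) c3' hc3']
    have h6 : sv K z ≤ sv K b3 + sv K (b3 + z) := by
      have := sv_add_le h2 b3 (b3 + z)
      rwa [add_self_left] at this
    refine ⟨by omega, ?_⟩
    have h7 : sv K (b3 + (b3 + z)) = sv K b3 + sv K (b3 + z) := by
      rw [add_self_left]; omega
    rcases h.2.2 b3 hb3' _ (B.add_mem hb3' hz) h7 with h8 | h8
    · exact Or.inl h8
    · exact Or.inr (eq_of_add h8)
  obtain ⟨hc3, hb3⟩ := hxz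
  -- the relation between the norms
  have hrel : xu = c3' ∨ xu = c3' + u := by
    have h3 := TN ρ
    rw [exu, exz, eρ, ← R1, ← R3, nq, map_zero, map_zero, ← map_add, ← map_add, ← map_add,
      ← map_add, zp, zq] at h3
    have h4 : lin q.res (xu + xz + z) = lin q.res z → xu + xz = 0 ∨ xu + xz = u := by
      intro h5
      have h6 : lin q.res (xu + xz) = 0 := by
        rw [map_add] at h5
        exact add_eq_right.1 h5
      exact (zq _).1 h6
    -- the component in `C`
    have h5 : ∀ w : VV K, (w = xu + xz + z ∨ w = xu + xz) → w = 0 ∨ w = u →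
        xu = c3' ∨ xu = c3' + u := by
      intro w hw hw'
      have h6 : ∃ b' ∈ B, w = b' + (xu + c3') := by
        rcases hw with rfl | rfl
        · exact ⟨b3 + z, B.add_mem hb3' hz, by rw [e3]; abel⟩
        · exact ⟨b3, hb3', by rw [e3]; abel⟩
      obtain ⟨b', hb', e⟩ := h6
      rcases hw' with rfl | rfl
      · left
        have := H.comp_eq hb' B.zero_mem (C.add_mem hxu hc3') C.zero_mem
          (by rw [← e, add_zero])
        exact eq_of_add this.2
      · right
        have := (H.comp_eq hb' B.zero_mem (C.add_mem hxu hc3') ha (by rw [← e, zero_add])).2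
        rw [← this, add_comm xu, add_self_left]
    rcases h3 with h3 | h3
    · exact h5 _ (Or.inl rfl) h3
    · exact h5 _ (Or.inr rfl) (h4 h3)
  have exu' : lin p.nm ρ = lin q.res c3' := by
    rw [exu]
    rcases hrel with e | e
    · rw [e]
    · rw [e, map_add, (zq u).2 (Or.inr rfl), add_zero]
  -- correction by a radical class of `F`
  obtain ⟨ω, hω, eω⟩ := rn h2 qF c3' ((sv_eq_zero_iff h2 _).1 hc3)
  have hω0 : sv F ω = 0 := (sv_eq_zero_iff qF.two_ne ω).2 hω
  have hρ' : sv L (lin pF.res ω) = 0 := by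
    have h3 := SpF ω
    have h4 := (sub_sv (K := F) qF.two_ne).add_rad (x := lin qF.res u) hω0
    rw [add_comm] at h4
    have h5 : sv F (ω + lin qF.res u) = sv F (lin qF.res u) := h4
    omega
  have hsum : sv L (ρ + lin pF.res ω) = 0 := by
    have h3 := sv_add_le p.two_ne ρ (lin pF.res ω)
    omega
  obtain ⟨y, ey⟩ := kp (ρ + lin pF.res ω) (by
    rw [map_add, C1, eω, exu', self_add])
  -- the norm of `y`
  have ny1 : lin q.nm y = z + c3' ∨ lin q.nm y = c3' + u := by
    have h3 : lin qG.res (lin q.nm y + (z + c3')) = 0 := by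
      rw [map_add, ← C3, ← ey, map_add, eρ, C2, eω, ← map_add, ← map_add]
      rw [self_add, map_zero]
    rcases (zqG _).1 h3 with h4 | h4
    · left; exact eq_of_add h4
    · right
      have h5 : lin q.nm y = (lin q.nm y + (z + c3')) + (z + c3') := by
        rw [add_assoc, self_add, add_zero]
      rw [h5, h4, show z + u + (z + c3') = (z + z) + (c3' + u) by abel, self_add, zero_add]
  have ny2 : lin q.nm y = xz ∨ lin q.nm y = xz + z := by
    have h3 : lin qF.res (lin q.nm y + xz) = 0 := by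
      rw [map_add, ← C4, ← ey, map_add, exz, npF, add_zero, self_add]
    rcases (zqF _).1 h3 with h4 | h4
    · left; exact eq_of_add h4
    · right
      rw [← h4, add_comm xz, add_assoc, self_add, add_zero]
  have ny : lin q.nm y = z + c3' := by
    rcases ny1 with h3 | h3
    · exact h3
    · exfalso
      have h4 : ∃ b' ∈ B, lin q.nm y = b' + c3' := by
        rcases ny2 with h5 | h5
        · exact ⟨b3, hb3', by rw [h5, e3]⟩
        · exact ⟨b3 + z, B.add_mem hb3' hz, by rw [h5, e3]; abel⟩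
      obtain ⟨b', hb', e⟩ := h4
      rw [h3] at e
      have h5 := (H.comp_eq B.zero_mem hb' (C.add_mem hc3' ha) hc3' (by rw [zero_add]; exact e)).2
      exact hu0 (add_eq_left.1 h5)
  -- correction by a radical class of `E`
  obtain ⟨θ, hθ, eθ⟩ := rn h2 q c3' ((sv_eq_zero_iff h2 _).1 hc3)
  have hθ0 : sv E θ = 0 := (sv_eq_zero_iff q.two_ne θ).2 hθ
  refine ⟨y + θ, by rw [map_add, ny, eθ, add_assoc, self_add, add_zero], ?_⟩
  have hsE : Sub (fun x : VV E => sv E x) := sub_sv q.two_ne
  have h3 : sv E (y + θ) = sv E y := hsE.add_rad hθ0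
  have h4 : sv E (y + θ + lin q.res z) = sv E (y + lin q.res z) := by
    rw [show y + θ + lin q.res z = (y + lin q.res z) + θ by abel]
    exact hsE.add_rad hθ0
  rw [add_self_left, h3, h4]
  have h5 := Sp' y
  rw [← ey, hsum] at h5
  omega

/-- The block step. -/
theorem blk_step {K E : Type u} [Field K] [Field E] [Algebra K E] (h2 : (2 : K) ≠ 0)
    [Finite (SqClass K)] (hfin : finrank K E = 2) (a : Kˣ) (α : E)
    (hα : α ^ 2 = algebraMap K E a) (hns : ¬ ∃ t : K, (a : K) = t ^ 2)
    {B C : Submodule (ZMod 2) (VV K)} (h : IsBlk K B C) (ha : (ofMul (sqClass a) : VV K) ∈ C) :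
    ∃ B' C' : Submodule (ZMod 2) (VV E), IsBlk E B' C' ∧ (∀ c ∈ C, lin (gres K E) c ∈ C') ∧
      (∀ x ∈ B', lin (gnm K E) x ∈ B) ∧ (∀ b ∈ B, ∃ x ∈ B', lin (gnm K E) x = b) ∧
      (∀ x ∈ B', lin (gnm K E) x = 0 → x = 0) ∧
      (∀ x ∈ B', lin (gres K E) (lin (gnm K E) x) + x ∈ C') ∧
      (∀ x ∈ B', ∀ y ∈ B', Sp E x y ↔ Sp K (lin (gnm K E) x) (lin (gnm K E) y)) := by
  obtain ⟨q, hq, hq'⟩ := exists_QS h2 hfin a α hα hns
  have hE := finite_ext q.toQE
  rw [← hq, ← hq']
  by_cases hB : B = ⊥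
  · -- the trivial block
    subst hB
    have hC : C = ⊤ := by
      have := h.1.sup_eq_top
      rwa [bot_sup_eq] at this
    refine ⟨⊥, ⊤, ⟨isCompl_bot_top, ?_, ?_⟩, fun _ _ => Submodule.mem_top, ?_, ?_, ?_,
      fun _ _ => Submodule.mem_top, ?_⟩
    · intro b hb c _
      rw [Submodule.mem_bot] at hb
      rw [hb, zero_add, sv_zero q.two_ne, zero_add]
    · intro x hx _ _ _
      left
      exact (Submodule.mem_bot _).1 hx
    · intro x hx
      rw [(Submodule.mem_bot _).1 hx, map_zero]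
      exact Submodule.zero_mem _
    · intro b hb
      exact ⟨0, Submodule.zero_mem _, by rw [(Submodule.mem_bot _).1 hb, map_zero]⟩
    · intro x hx _
      exact (Submodule.mem_bot _).1 hx
    · intro x hx y hy
      rw [(Submodule.mem_bot _).1 hx, map_zero]
      constructor
      · intro _
        exact sp_zero_left h2 _
      · intro _
        exact sp_zero_left q.two_ne _
  · obtain ⟨z, hz, hz0⟩ := (Submodule.ne_bot_iff B).1 hB
    obtain ⟨y₀, hy1, hy3⟩ := lemma_split h2 hfin a α hα hns q.toQL hq hq' h ha z hz hz0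
    have hy1' : lin q.nm y₀ = z := hy1
    have hτ : lin q.sg y₀ = y₀ + lin q.res z := by
      rw [← hy1', res_nm', add_self_left]
    have hind : sv E (y₀ + lin q.sg y₀) = sv E y₀ + sv E (lin q.sg y₀) := by
      rw [hτ]; exact hy3
    obtain ⟨μ, hμ⟩ := isCut_sv (K := E) q.two_ne
    obtain ⟨A, W, hA0, hW0, hsup, hrad, hadd⟩ := exists_splitting (sv E) ⟨μ, hμ⟩
      (fun m w b => split5 E q.two_ne m w b) y₀ (lin q.sg y₀) hind
    have hN : ∀ z ∈ B, ∃ y, lin q.nm y = z := by
      intro z hz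
      have h3 : Sp K (ofMul (sqClass a)) z := by
        obtain ⟨Q, _, _, _, β, hβ, symm, -⟩ := exists_symbol K h2
        rw [← hβ, symm]
        exact beta_of_indep hβ symm (h.2.1 z hz _ ha)
      obtain ⟨y, hy⟩ := q.range_nm (toMul z) h3
      exact ⟨ofMul y, hy⟩
    obtain ⟨B', C', hblk, hres, hNB, hsurj, hinj, hconj, hindep⟩ :=
      blk_abs (ext_of_QS q h2) h.abs ha hN hsup hrad hadd hA0 hW0 (by rw [hy1']; exact hz)
        (by rw [hy1']; exact hz0)
    refine ⟨B', C', ⟨hblk.compl, hblk.add, hblk.oe⟩, hres, hNB, hsurj, hinj, ?_, ?_⟩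
    · intro x hx
      rw [res_nm', add_comm, add_self_left]
      exact hconj x hx
    · intro x hx y hy
      obtain ⟨QE', _, _, _, βE, hβE, symmE, -⟩ := exists_symbol E q.two_ne
      have e1 : βE (lin q.sg x) y = 0 := by
        rw [symmE]
        exact beta_of_indep hβE symmE (hindep y hy x hx)
      constructor
      · intro h3
        apply q.proj
        show Sp E (lin q.res (lin q.nm x)) y
        rw [← hβE] at h3 ⊢
        rw [res_nm', map_add, LinearMap.add_apply, h3, e1, add_zero]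
      · intro h3
        obtain ⟨t, ht⟩ := q.principle _ _ h3
        have h4 : Sp E (lin q.res (lin q.nm x)) (y + lin q.res (ofMul t)) := ht
        rw [← hβE, res_nm', map_add βE, LinearMap.add_apply, map_add (βE x),
          map_add (βE (lin q.sg x)), e1, zero_add] at h4
        -- β(x, y) = β(x, res t) + β(τ x, res t)
        have h5 : βE x (y + lin q.res (ofMul t)) = βE (lin q.sg x) (lin q.res (ofMul t)) := by
          rw [map_add]
          exact eq_of_add h4
        have h7 := disjoint_range hβE (hindep x hx x hx)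
        rw [Submodule.disjoint_def] at h7
        have h8 : βE (lin q.sg x) (lin q.res (ofMul t)) = 0 :=
          h7 _ ⟨_, h5⟩ ⟨_, rfl⟩
        have h9 : βE x (lin q.res (ofMul t)) = 0 := by
          rw [hβE] at h8 ⊢
          have := sg_sp q h8
          rwa [sg_sg', sg_res'] at this
        rw [h8, map_add, h9, add_zero] at h5
        exact (hβE _ _).1 h5

end Pool.Agent.Hhelper69.Blk
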