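import Mathlib

/-!
Combinatorial and geometric core for MP_b9d480_lc.
-/

namespace Pool.Agent.Hhelper69.PF

/-! ### Words -/

/-- bound on the length of the `n`-th initial word -/
def B : ℕ → ℕ
  | 0 => 0
  | n + 1 => 8 * B n + 20

/-- alternating word `false, true, false, true, …` of length `2 * k` -/
def alt : ℕ → List Bool
  | 0 => []
  | k + 1 => false :: true :: alt k

/-- coding part -/
def cod (ε : Bool) : List Bool := if ε then [false] else [false, false, false]

/-- block -/
def blk (n : ℕ) (ε : Bool) : List Bool :=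
  List.replicate (B n + 2) true ++ (alt (B n + 2) ++ (cod ε ++ [true]))

/-- initial words -/
def pre : ℕ → (ℕ → Bool) → List Bool
  | 0, _ => []
  | n + 1, x => (pre n x ++ blk n (x n)) ++ (pre n (fun _ => true) ++ blk n true).reverse

/-- half of the initial words -/
def mid (n : ℕ) (x : ℕ → Bool) : List Bool := pre n x ++ blk n (x n)

theorem pre_succ (n : ℕ) (x : ℕ → Bool) :
    pre (n + 1) x = mid n x ++ (mid n (fun _ => true)).reverse := rfl

@[simp] theorem alt_length (k : ℕ) : (alt k).length = 2 * k := by
  induction k with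
  | zero => rfl
  | succ k ih => simp [alt, ih]; ring

theorem cod_length_le (ε : Bool) : (cod ε).length ≤ 3 := by
  cases ε <;> simp [cod]

theorem blk_length (n : ℕ) (ε : Bool) :
    (blk n ε).length = (B n + 2) + (2 * (B n + 2) + ((cod ε).length + 1)) := by
  simp [blk]

theorem pre_length_le (n : ℕ) : ∀ x, (pre n x).length ≤ B n := by
  induction n with
  | zero => intro x; simp [pre, B]
  | succ n ih =>
    intro x
    have h1 := ih x
    have h2 := ih (fun _ => true)
    have h3 := cod_length_le (x n)
    have h4 := cod_length_le true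
    simp only [pre, List.length_append, List.length_reverse, blk_length, B]
    omega

theorem le_pre_length (n : ℕ) : ∀ x, n ≤ (pre n x).length := by
  induction n with
  | zero => intro x; simp
  | succ n ih =>
    intro x
    have h1 := ih x
    simp only [pre, List.length_append, List.length_reverse, blk_length]
    omega

theorem blk_length_even (n : ℕ) (ε : Bool) : (blk n ε).length % 2 = (B n) % 2 := by
  rw [blk_length]
  cases ε <;> simp [cod] <;> omega

theorem pre_length_even (n : ℕ) : ∀ x, (pre n x).length % 2 = 0 := by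
  induction n with
  | zero => intro x; simp [pre]
  | succ n ih =>
    intro x
    have h1 := ih x
    have h2 := ih (fun _ => true)
    have h3 := blk_length_even n (x n)
    have h4 := blk_length_even n true
    simp only [pre, List.length_append, List.length_reverse]
    omega

theorem pre_prefix_succ (n : ℕ) (x : ℕ → Bool) : pre n x <+: pre (n + 1) x := by
  rw [pre]
  rw [List.append_assoc]
  exact List.prefix_append _ _

theorem pre_prefix {n m : ℕ} (h : n ≤ m) (x : ℕ → Bool) : pre n x <+: pre m x := by
  induction m, h using Nat.le_induction with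
  | base => exact List.prefix_rfl
  | succ m _ ih => exact ih.trans (pre_prefix_succ m x)

/-- the infinite word -/
def sq (x : ℕ → Bool) (i : ℕ) : Bool := (pre (i + 1) x).getD i false

theorem sq_eq {x : ℕ → Bool} {n i : ℕ} (h : i < (pre n x).length) :
    (pre n x)[i]? = some (sq x i) := by
  have hi : i < (pre (i + 1) x).length := lt_of_lt_of_le (Nat.lt_succ_self i) (le_pre_length _ _)
  have key : (pre n x)[i]? = (pre (i + 1) x)[i]? := by
    rcases le_total n (i + 1) with hle | hle
    · obtain ⟨t, ht⟩ := pre_prefix hle x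
      rw [← ht, List.getElem?_append_left h]
    · obtain ⟨t, ht⟩ := pre_prefix hle x
      rw [← ht, List.getElem?_append_left hi]
  rw [key, sq, List.getD_eq_getElem?_getD, List.getElem?_eq_getElem hi]
  simp

/-- `w` occurs in `b` at position `p` -/
def Occ (b : ℕ → Bool) (p : ℕ) (w : List Bool) : Prop :=
  ∀ j (hj : j < w.length), b (p + j) = w[j]

theorem Occ.append {b : ℕ → Bool} {p : ℕ} {w v : List Bool} (h : Occ b p (w ++ v)) :
    Occ b p w ∧ Occ b (p + w.length) v := by
  constructor
  · intro j hj
    have := h j (by simp; omega)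
    rw [this, List.getElem_append_left hj]
  · intro j hj
    have := h (w.length + j) (by simp; omega)
    rw [Nat.add_assoc, this, List.getElem_append_right (by omega)]
    simp

theorem occ_pre (x : ℕ → Bool) (n : ℕ) : Occ (sq x) 0 (pre n x) := by
  intro j hj
  have := sq_eq (x := x) (n := n) (i := j) hj
  rw [List.getElem?_eq_getElem hj] at this
  simpa using (Option.some.inj this).symm

theorem occ_blk (x : ℕ → Bool) (n : ℕ) : Occ (sq x) (pre n x).length (blk n (x n)) := by
  have h := occ_pre x (n + 1)
  rw [pre, List.append_assoc] at h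
  have h2 := h.append.2.append.1
  simpa using h2

theorem occ_mirror (x : ℕ → Bool) (n : ℕ) :
    Occ (sq x) (mid n x).length (mid n (fun _ => true)).reverse := by
  have h := occ_pre x (n + 1)
  rw [pre_succ] at h
  simpa using h.append.2

/-! ### Walks -/

/-- walks on the half-line path whose edge `{i, i+1}` carries the label `b i` -/
inductive Walk (b : ℕ → Bool) : ℕ → List Bool → ℕ → Prop
  | nil (p : ℕ) : Walk b p [] p
  | right {p q : ℕ} {w : List Bool} (h : Walk b (p + 1) w q) : Walk b p (b p :: w) q
  | left {p q : ℕ} {w : List Bool} (h : Walk b p w q) : Walk b (p + 1) (b p :: w) q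

theorem Walk.append {b : ℕ → Bool} {p q r : ℕ} {w v : List Bool} (h : Walk b p w q)
    (h' : Walk b q v r) : Walk b p (w ++ v) r := by
  induction h with
  | nil p => simpa using h'
  | right _ ih => exact Walk.right (ih h')
  | left _ ih => exact Walk.left (ih h')

theorem Walk.reverse {b : ℕ → Bool} {p q : ℕ} {w : List Bool} (h : Walk b p w q) :
    Walk b q w.reverse p := by
  induction h with
  | nil p => exact Walk.nil p
  | @right p q w _ ih =>
    rw [List.reverse_cons]
    exact ih.append (Walk.left (Walk.nil p))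
  | @left p q w _ ih =>
    rw [List.reverse_cons]
    exact ih.append (Walk.right (Walk.nil (p + 1)))

theorem Walk.split {b : ℕ → Bool} {v : List Bool} {r : ℕ} : ∀ {w : List Bool} {p : ℕ},
    Walk b p (w ++ v) r → ∃ q, Walk b p w q ∧ Walk b q v r := by
  intro w
  induction w with
  | nil => intro p h; exact ⟨p, Walk.nil p, by simpa using h⟩
  | cons a w ih =>
    intro p h
    rw [List.cons_append] at h
    cases h with
    | right h =>
      obtain ⟨q, h1, h2⟩ := ih h
      exact ⟨q, Walk.right h1, h2⟩
    | left h =>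
      obtain ⟨q, h1, h2⟩ := ih h
      exact ⟨q, Walk.left h1, h2⟩

/-- `w` can be read across `v` -/
inductive Rd : List Bool → List Bool → Prop
  | nil : Rd [] []
  | one (a : Bool) {w v : List Bool} (h : Rd w v) : Rd (a :: w) (a :: v)
  | three (a : Bool) {w v : List Bool} (h : Rd w v) : Rd (a :: a :: a :: w) (a :: v)

theorem Rd.refl : ∀ w, Rd w w
  | [] => Rd.nil
  | a :: w => Rd.one a (Rd.refl w)

theorem Rd.append {w v w' v' : List Bool} (h : Rd w v) (h' : Rd w' v') :
    Rd (w ++ w') (v ++ v') := by
  induction h with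
  | nil => exact h'
  | one a _ ih => exact Rd.one a ih
  | three a _ ih => exact Rd.three a ih

theorem Rd.reverse {w v : List Bool} (h : Rd w v) : Rd w.reverse v.reverse := by
  induction h with
  | nil => exact Rd.nil
  | one a _ ih =>
    simp only [List.reverse_cons]
    exact ih.append (Rd.refl [a])
  | three a _ ih =>
    simp only [List.reverse_cons, List.append_assoc]
    exact ih.append (Rd.three a Rd.nil)

theorem Rd.walk {b : ℕ → Bool} {w v : List Bool} (h : Rd w v) :
    ∀ {p : ℕ}, Occ b p v → Walk b p w (p + v.length) := by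
  induction h with
  | nil => intro p _; exact Walk.nil p
  | @one a w v _ ih =>
    intro p ho
    have ha : b p = a := ho 0 (Nat.succ_pos _)
    have hv : Occ b (p + 1) v := by simpa using (Occ.append (w := [a]) (v := v) ho).2
    have := Walk.right (ih hv)
    rw [ha] at this
    have e : p + 1 + v.length = p + (a :: v).length := by simp; omega
    rwa [e] at this
  | @three a w v _ ih =>
    intro p ho
    have ha : b p = a := ho 0 (Nat.succ_pos _)
    have hv : Occ b (p + 1) v := by simpa using (Occ.append (w := [a]) (v := v) ho).2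
    have := Walk.right (Walk.left (Walk.right (ih hv)))
    rw [ha] at this
    have e : p + 1 + v.length = p + (a :: v).length := by simp; omega
    rwa [e] at this

theorem rd_cod {ε δ : Bool} (h : ε = true → δ = true) : Rd (cod ε) (cod δ) := by
  cases ε <;> cases δ
  · exact Rd.refl _
  · exact Rd.three false Rd.nil
  · simp at h
  · exact Rd.refl _

theorem rd_blk (n : ℕ) {ε δ : Bool} (h : ε = true → δ = true) : Rd (blk n ε) (blk n δ) :=
  (Rd.refl _).append ((Rd.refl _).append ((rd_cod h).append (Rd.refl _)))

theorem rd_pre (n : ℕ) (x : ℕ → Bool) : Rd (pre n x) (pre n (fun _ => true)) := by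
  induction n with
  | zero => exact Rd.nil
  | succ n ih =>
    exact (ih.append (rd_blk n (by simp))).append (Rd.refl _)

theorem rd_mid (n : ℕ) (x : ℕ → Bool) : Rd (mid n x) (mid n (fun _ => true)) :=
  (rd_pre n x).append (rd_blk n (by simp))

theorem walk_pre {x y : ℕ → Bool} {n₀ : ℕ} (hxy : ∀ n, n₀ ≤ n → x n = true → y n = true) :
    ∀ n, n₀ + 1 ≤ n → Walk (sq y) (pre (n₀ + 1) y).length (pre n x) (pre n y).length := by
  intro n hn
  induction n, hn using Nat.le_induction with
  | base =>
    have h1 := (rd_mid n₀ x).reverse.walk (occ_mirror y n₀)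
    have e : (mid n₀ y).length + (mid n₀ (fun _ => true)).reverse.length
        = (pre (n₀ + 1) y).length := by
      rw [pre_succ]; simp
    rw [e] at h1
    have h2 := h1.reverse
    rw [List.reverse_reverse] at h2
    have h3 := (Rd.refl (mid n₀ (fun _ => true)).reverse).walk (occ_mirror y n₀)
    rw [e] at h3
    rw [pre_succ n₀ x]
    exact h2.append h3
  | succ n hn ih =>
    have h1 := (rd_blk n (hxy n (by omega))).walk (occ_blk y n)
    have e1 : (pre n y).length + (blk n (y n)).length = (mid n y).length := by
      rw [mid]; simp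
    rw [e1] at h1
    have h3 := (Rd.refl (mid n (fun _ => true)).reverse).walk (occ_mirror y n)
    have e : (mid n y).length + (mid n (fun _ => true)).reverse.length
        = (pre (n + 1) y).length := by
      rw [pre_succ]; simp
    rw [e] at h3
    rw [pre_succ n x, mid]
    exact (ih.append h1).append h3

/-- an infinite walk on the path labelled `b` reading the word `a` -/
structure IsWalk (a b : ℕ → Bool) (h : ℕ → ℕ) : Prop where
  step : ∀ i, (h (i + 1) = h i + 1 ∧ a i = b (h i)) ∨ (h i = h (i + 1) + 1 ∧ a i = b (h (i + 1)))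

/-- segments of an infinite word -/
def seg (a : ℕ → Bool) (i n : ℕ) : List Bool := (List.range n).map (fun j => a (i + j))

theorem seg_succ (a : ℕ → Bool) (i n : ℕ) : seg a i (n + 1) = a i :: seg a (i + 1) n := by
  simp only [seg, List.range_succ_eq_map, List.map_cons, List.map_map, Nat.add_zero]
  congr 1
  apply List.map_congr_left
  intro j _
  simp only [Function.comp]
  congr 1
  omega

theorem seg_add (a : ℕ → Bool) (i n m : ℕ) : seg a i (n + m) = seg a i n ++ seg a (i + n) m := by
  induction n generalizing i with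
  | zero => simp [seg]
  | succ n ih =>
    rw [show n + 1 + m = (n + m) + 1 by omega, seg_succ, ih, seg_succ]
    simp only [List.cons_append]
    rw [show i + 1 + n = i + (n + 1) by omega]

theorem exists_isWalk {a b : ℕ → Bool} {p : ℕ}
    (H : ∀ n, ∃ q, Walk b p (seg a 0 n) q) : ∃ h : ℕ → ℕ, h 0 = p ∧ IsWalk a b h := by
  classical
  let Good : ℕ → ℕ → Prop := fun i p => ∀ n, ∃ q, Walk b p (seg a i n) q
  let Step : ℕ → ℕ → ℕ → Prop := fun i p p' =>
    (p' = p + 1 ∧ a i = b p) ∨ (p = p' + 1 ∧ a i = b p')
  have key : ∀ i p, Good i p → ∃ p', Good (i + 1) p' ∧ Step i p p' := by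
    intro i p hg
    by_contra hcon
    push Not at hcon
    -- lengths at which the two options fail
    have mono : ∀ {j r n m : ℕ}, n ≤ m → (∃ q, Walk b r (seg a j m) q) →
        ∃ q, Walk b r (seg a j n) q := by
      intro j r n m hnm ⟨q, hq⟩
      obtain ⟨d, rfl⟩ := Nat.exists_eq_add_of_le hnm
      rw [seg_add] at hq
      obtain ⟨q', h1, _⟩ := hq.split
      exact ⟨q', h1⟩
    have fail : ∀ p', Step i p p' → ∃ n, ∀ m, n ≤ m → ¬ ∃ q, Walk b p' (seg a (i + 1) m) q := by
      intro p' hs
      have : ¬ Good (i + 1) p' := fun hg' => hcon p' hg' hs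
      simp only [Good, not_forall] at this
      obtain ⟨n, hn⟩ := this
      exact ⟨n, fun m hm hex => hn (mono hm hex)⟩
    -- choose a large N
    have hR : ∃ n, Step i p (p + 1) → ∀ m, n ≤ m → ¬ ∃ q, Walk b (p + 1) (seg a (i + 1) m) q := by
      by_cases hs : Step i p (p + 1)
      · obtain ⟨n, hn⟩ := fail _ hs
        exact ⟨n, fun _ => hn⟩
      · exact ⟨0, fun h => absurd h hs⟩
    have hL : ∃ n, Step i p (p - 1) → ∀ m, n ≤ m → ¬ ∃ q, Walk b (p - 1) (seg a (i + 1) m) q := by
      by_cases hs : Step i p (p - 1)
      · obtain ⟨n, hn⟩ := fail _ hs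
        exact ⟨n, fun _ => hn⟩
      · exact ⟨0, fun h => absurd h hs⟩
    obtain ⟨nR, hR⟩ := hR
    obtain ⟨nL, hL⟩ := hL
    obtain ⟨q, hq⟩ := hg (max nR nL + 1)
    rw [seg_succ] at hq
    generalize hw : seg a (i + 1) (max nR nL) = w at hq
    generalize ha : a i = c at hq
    cases hq with
    | right h =>
      exact hR (Or.inl ⟨rfl, ha⟩) _ (le_max_left _ _) ⟨q, by rw [hw]; exact h⟩
    | @left p _ _ h =>
      exact hL (Or.inr ⟨by simp, by simpa using ha⟩) _ (le_max_right _ _)
        ⟨q, by rw [hw]; simpa using h⟩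
  -- build the walk by recursion
  choose! nxt hnxt1 hnxt2 using key
  let h : ℕ → ℕ := fun i => Nat.rec p (fun i r => nxt i r) i
  have hgood : ∀ i, Good i (h i) := by
    intro i
    induction i with
    | zero => exact H
    | succ i ih => exact hnxt1 i _ ih
  exact ⟨h, rfl, ⟨fun i => hnxt2 i _ (hgood i)⟩⟩

theorem pre_eq_seg (x : ℕ → Bool) (n : ℕ) : pre n x = seg (sq x) 0 (pre n x).length := by
  apply List.ext_getElem
  · simp [seg]
  · intro i h1 h2
    have := occ_pre x n i h1
    simp only [seg, List.getElem_map, List.getElem_range]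
    exact this.symm

/-- positive direction -/
theorem isWalk_of_finite {x y : ℕ → Bool} {n₀ : ℕ}
    (hxy : ∀ n, n₀ ≤ n → x n = true → y n = true) :
    ∃ h : ℕ → ℕ, h 0 % 2 = 0 ∧ IsWalk (sq x) (sq y) h := by
  obtain ⟨h, h0, hw⟩ := exists_isWalk (a := sq x) (b := sq y) (p := (pre (n₀ + 1) y).length) (by
    intro n
    have := walk_pre hxy (n + n₀ + 1) (by omega)
    rw [pre_eq_seg x] at this
    have hlen := le_pre_length (n + n₀ + 1) x
    obtain ⟨d, hd⟩ := Nat.exists_eq_add_of_le (show n ≤ (pre (n + n₀ + 1) x).length by omega)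
    rw [hd, seg_add] at this
    obtain ⟨q, hq, _⟩ := this.split
    exact ⟨q, hq⟩)
  exact ⟨h, by rw [h0]; exact pre_length_even _ _, hw⟩

/-! ### Rigidity -/

theorem IsWalk.parity {a b : ℕ → Bool} {h : ℕ → ℕ} (hw : IsWalk a b h) (i : ℕ) :
    (h i + i) % 2 = h 0 % 2 := by
  induction i with
  | zero => rfl
  | succ i ih =>
    rcases hw.step i with ⟨h1, _⟩ | ⟨h1, _⟩ <;> omega

theorem IsWalk.le {a b : ℕ → Bool} {h : ℕ → ℕ} (hw : IsWalk a b h) (i : ℕ) :
    h i ≤ h 0 + i := by
  induction i with
  | zero => simp
  | succ i ih =>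
    rcases hw.step i with ⟨h1, _⟩ | ⟨h1, _⟩ <;> omega

/-- continuing in the same direction when consecutive labels differ -/
theorem IsWalk.cont_right {a b : ℕ → Bool} {h : ℕ → ℕ} (hw : IsWalk a b h) {i : ℕ}
    (hne : a i ≠ a (i + 1)) (hr : h (i + 1) = h i + 1) : h (i + 2) = h (i + 1) + 1 := by
  rcases hw.step (i + 1) with ⟨h1, _⟩ | ⟨h1, h2⟩
  · exact h1
  · exfalso
    rcases hw.step i with ⟨_, h3⟩ | ⟨h3, _⟩
    · apply hne
      rw [h2, h3]
      congr 1
      omega
    · omega

theorem IsWalk.cont_left {a b : ℕ → Bool} {h : ℕ → ℕ} (hw : IsWalk a b h) {i : ℕ}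
    (hne : a i ≠ a (i + 1)) (hr : h i = h (i + 1) + 1) : h (i + 1) = h (i + 2) + 1 := by
  rcases hw.step (i + 1) with ⟨h1, h2⟩ | ⟨h1, _⟩
  · exfalso
    rcases hw.step i with ⟨h3, _⟩ | ⟨_, h3⟩
    · omega
    · apply hne
      rw [h2, h3]
  · exact h1

theorem IsWalk.run_right {a b : ℕ → Bool} {h : ℕ → ℕ} (hw : IsWalk a b h) {t L : ℕ}
    (halt : ∀ j, j < L → a (t + j) ≠ a (t + j + 1)) (hr : h (t + 1) = h t + 1) :
    ∀ j, j ≤ L + 1 → h (t + j) = h t + j := by
  have : ∀ j, j ≤ L → h (t + j) = h t + j ∧ h (t + j + 1) = h t + j + 1 := by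
    intro j hj
    induction j with
    | zero => exact ⟨rfl, hr⟩
    | succ j ih =>
      obtain ⟨h1, h2⟩ := ih (by omega)
      refine ⟨by rw [← Nat.add_assoc]; omega, ?_⟩
      have := hw.cont_right (halt j (by omega)) (by omega)
      rw [show t + (j + 1) + 1 = t + j + 2 by omega]
      omega
  intro j hj
  rcases Nat.lt_or_ge L j with h | h
  · have := (this L le_rfl).2
    rw [show j = L + 1 by omega, ← Nat.add_assoc]
    omega
  · exact (this j h).1

theorem IsWalk.run_left {a b : ℕ → Bool} {h : ℕ → ℕ} (hw : IsWalk a b h) {t L : ℕ}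
    (halt : ∀ j, j < L → a (t + j) ≠ a (t + j + 1)) (hr : h t = h (t + 1) + 1) :
    ∀ j, j ≤ L + 1 → h (t + j) + j = h t := by
  have : ∀ j, j ≤ L → h (t + j) + j = h t ∧ h (t + j + 1) + j + 1 = h t := by
    intro j hj
    induction j with
    | zero => exact ⟨rfl, hr.symm⟩
    | succ j ih =>
      obtain ⟨h1, h2⟩ := ih (by omega)
      refine ⟨by rw [← Nat.add_assoc]; omega, ?_⟩
      have := hw.cont_left (halt j (by omega)) (by omega)
      rw [show t + (j + 1) + 1 = t + j + 2 by omega]
      omega
  intro j hj
  rcases Nat.lt_or_ge L j with h | h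
  · have := (this L le_rfl).2
    rw [show j = L + 1 by omega, ← Nat.add_assoc]
    omega
  · exact (this j h).1

theorem alt_getElem (k : ℕ) : ∀ j (hj : j < (alt k).length), (alt k)[j] = decide (j % 2 = 1) := by
  induction k with
  | zero => intro j hj; simp [alt] at hj
  | succ k ih =>
    intro j hj
    match j with
    | 0 => simp [alt]
    | 1 => simp [alt]
    | j + 2 =>
      have : j < (alt k).length := by simp [alt] at hj ⊢; omega
      simp only [alt, List.getElem_cons_succ]
      rw [ih j this]
      congr 1
      simp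

/-- labels of the `n`-th block -/
theorem sq_labels (x : ℕ → Bool) (n : ℕ) :
    (∀ j, j < B n + 2 → sq x ((pre n x).length + j) = true) ∧
    (∀ j, j < 2 * (B n + 2) →
      sq x ((pre n x).length + (B n + 2) + j) = decide (j % 2 = 1)) ∧
    (sq x ((pre n x).length + (B n + 2) + 2 * (B n + 2)) = false) ∧
    (sq x ((pre n x).length + (B n + 2) + (2 * (B n + 2) + 1)) = x n) := by
  have h := occ_blk x n
  rw [blk] at h
  obtain ⟨h1, h⟩ := h.append
  obtain ⟨h2, h⟩ := h.append
  simp only [List.length_replicate, alt_length] at h2 h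
  refine ⟨?_, ?_, ?_, ?_⟩
  · intro j hj
    have := h1 j (by simpa using hj)
    rw [this]; simp
  · intro j hj
    have := h2 j (by simpa using hj)
    rw [this, alt_getElem]
  · have := h 0 (by cases x n <;> simp [cod])
    simp only [Nat.add_zero] at this
    rw [this]
    cases x n <;> simp [cod]
  · have := h 1 (by cases x n <;> simp [cod])
    rw [show (pre n x).length + (B n + 2) + (2 * (B n + 2) + 1)
      = (pre n x).length + (B n + 2) + 2 * (B n + 2) + 1 by omega]
    rw [this]
    cases x n <;> simp [cod]

/-- negative direction -/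
theorem rigid {x y : ℕ → Bool} {h : ℕ → ℕ} (h0 : h 0 % 2 = 0) (hw : IsWalk (sq x) (sq y) h)
    {n : ℕ} (hn : h 0 ≤ n) (hx : x n = true) : y n = true := by
  obtain ⟨ax1, ax2, ax3, ax4⟩ := sq_labels x n
  obtain ⟨ay1, ay2, ay3, ay4⟩ := sq_labels y n
  have hT := pre_length_le n x
  have hs := pre_length_le n y
  have hs' := le_pre_length n y
  have pT := pre_length_even n x
  have ps := pre_length_even n y
  set T := (pre n x).length with hTdef
  set s := (pre n y).length with hsdef
  set e := B n + 2 with he
  rw [hx] at ax4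
  -- position at time T
  have p1 : h T ≤ s + e := by have := hw.le T; omega
  -- reading the constant run
  have p2 : ∀ j, j ≤ e → h (T + j) ≤ s + e := by
    intro j hj
    induction j with
    | zero => exact p1
    | succ j ih =>
      have ih := ih (by omega)
      rcases hw.step (T + j) with ⟨h1, h2⟩ | ⟨h1, _⟩
      · rw [← Nat.add_assoc]
        rcases Nat.lt_or_ge (h (T + j)) (s + e) with hlt | hge
        · omega
        · exfalso
          have heq : h (T + j) = s + e := by omega
          rw [heq, ax1 j (by omega)] at h2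
          have := ay2 0 (by omega)
          simp only [Nat.add_zero] at this
          rw [this] at h2
          simp at h2
      · rw [← Nat.add_assoc]; omega
  have p3 := p2 e le_rfl
  -- alternation of labels
  have halt : ∀ j, j < 2 * e + 1 → sq x (T + e + j) ≠ sq x (T + e + j + 1) := by
    intro j hj
    rcases Nat.lt_or_ge (j + 1) (2 * e) with h1 | h1
    · rw [ax2 j (by omega), Nat.add_assoc (T + e), ax2 (j + 1) h1]
      intro hh
      rcases Nat.mod_two_eq_zero_or_one j with h2 | h2 <;>
        · have h3 : (j + 1) % 2 = 1 - j % 2 := by omega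
          rw [h3, h2] at hh
          simp at hh
    · rcases Nat.lt_or_ge j (2 * e) with h2 | h2
      · have hj' : j + 1 = 2 * e := by omega
        rw [ax2 j (by omega), Nat.add_assoc (T + e), hj', ax3]
        have : j % 2 = 1 := by omega
        simp [this]
      · have hj' : j = 2 * e := by omega
        rw [hj', ax3, Nat.add_assoc (T + e), ax4]
        simp
  -- direction
  have hdir : h (T + e + 1) = h (T + e) + 1 := by
    rcases hw.step (T + e) with ⟨h1, _⟩ | ⟨h1, _⟩
    · exact h1
    · exfalso
      have := hw.run_left (t := T + e) (L := 2 * e) (fun j hj => halt j (by omega)) h1 (2 * e)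
        (by omega)
      omega
  have hrun := hw.run_right (t := T + e) (L := 2 * e + 1) halt hdir
  -- labels traversed
  have hlab : ∀ j, j ≤ 2 * e + 1 → sq x (T + e + j) = sq y (h (T + e) + j) := by
    intro j hj
    have h1 := hrun j (by omega)
    have h2 := hrun (j + 1) (by omega)
    rcases hw.step (T + e + j) with ⟨_, h4⟩ | ⟨h3, _⟩
    · rw [h4, h1]
    · rw [← Nat.add_assoc] at h2
      omega
  -- starting position
  have hp : h (T + e) = s + e := by
    have hpar := hw.parity (T + e)
    by_contra hne
    have hlt : h (T + e) + 2 ≤ s + e := by omega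
    obtain ⟨j, hj⟩ := Nat.exists_eq_add_of_le hlt
    -- edges s+e-2 and s+e-1 are both traversed
    have l1 := hlab j (by omega)
    have l2 := hlab (j + 1) (by omega)
    have e1 : h (T + e) + j = s + (e - 2) := by omega
    have e2 : h (T + e) + (j + 1) = s + (e - 1) := by omega
    rw [e1, ay1 (e - 2) (by omega)] at l1
    rw [e2, ay1 (e - 1) (by omega)] at l2
    exact halt j (by omega) (by rw [l1, Nat.add_assoc, l2])
  have := hlab (2 * e + 1) le_rfl
  rw [hp, ax4, ay4] at this
  exact this.symm

end Pool.Agent.Hhelper69.PF
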