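import Mathlib
import Pool.Agent.Hhelper69.PomegaFin

/-!
Geometric part for MP_b9d480_lc.
-/

namespace Pool.Agent.Hhelper69.PF

open Set

/-- the set attached to a label word -/
def S (a : ℕ → Bool) : Set ℝ :=
  {t | (∃ i : ℕ, Odd i ∧ |t - i| < 1 / 2) ∨ ∃ i : ℕ, t = i + 1 / 2 ∧ a i = true}

theorem nat_eq_of_abs {i k : ℕ} {t : ℝ} (h1 : |t - i| < 1 / 2) (h2 : |t - k| < 1 / 2) : i = k := by
  rw [abs_lt] at h1 h2
  have h3 : (i : ℝ) < k + 1 := by linarith
  have h4 : (k : ℝ) < i + 1 := by linarith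
  have h3' : i < k + 1 := by exact_mod_cast h3
  have h4' : k < i + 1 := by exact_mod_cast h4
  omega

theorem not_half_near {i k : ℕ} (h : |((i : ℝ) + 1 / 2) - k| < 1 / 2) : False := by
  rw [abs_lt] at h
  have h3 : (i : ℝ) < k := by linarith
  have h4 : (k : ℝ) < i + 1 := by linarith
  have h3' : i < k := by exact_mod_cast h3
  have h4' : k < i + 1 := by exact_mod_cast h4
  omega

theorem mem_near {a : ℕ → Bool} {t : ℝ} {k : ℕ} (h : |t - k| < 1 / 2) : t ∈ S a ↔ Odd k := by
  constructor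
  · rintro (⟨i, hi, h'⟩ | ⟨i, hi, _⟩)
    · rwa [nat_eq_of_abs h' h] at hi
    · subst hi
      exact (not_half_near h).elim
  · intro hk
    exact Or.inl ⟨k, hk, h⟩

theorem mem_half {a : ℕ → Bool} {k : ℕ} : ((k : ℝ) + 1 / 2) ∈ S a ↔ a k = true := by
  constructor
  · rintro (⟨i, hi, h'⟩ | ⟨i, hi, ha⟩)
    · exact (not_half_near h').elim
    · have : (k : ℝ) = i := by linarith
      have : k = i := by exact_mod_cast this
      rwa [this]
  · intro hk
    exact Or.inr ⟨k, rfl, hk⟩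

theorem not_mem_lt {a : ℕ → Bool} {t : ℝ} (h : t < 1 / 2) : t ∉ S a := by
  rintro (⟨i, hi, h'⟩ | ⟨i, hi, ha⟩)
  · rw [abs_lt] at h'
    have h3 : (i : ℝ) < 1 := by linarith
    have h4 : i < 1 := by exact_mod_cast h3
    have : i = 0 := by omega
    subst this
    simp at hi
  · have : (0 : ℝ) ≤ i := Nat.cast_nonneg i
    linarith

/-- classification of reals -/
theorem cases_real (t : ℝ) : t < 1 / 2 ∨ (∃ k : ℕ, |t - k| < 1 / 2) ∨ ∃ k : ℕ, t = k + 1 / 2 := by
  rcases lt_or_ge t (1 / 2) with h | h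
  · exact Or.inl h
  · right
    have h0 : 0 ≤ t - 1 / 2 := by linarith
    have h1 := Nat.floor_le h0
    have h2 := Nat.lt_floor_add_one (t - 1 / 2)
    rcases h1.lt_or_eq with h3 | h3
    · left
      refine ⟨⌊t - 1 / 2⌋₊ + 1, ?_⟩
      rw [abs_lt]
      push_cast
      constructor <;> linarith
    · right
      exact ⟨⌊t - 1 / 2⌋₊, by linarith⟩

/-- closed part -/
def Fc : Set ℝ := {t | ∃ i : ℕ, Odd i ∧ |t - i| ≤ 1 / 2}

theorem isClosed_Fc : IsClosed Fc := by
  have : Fc = ⋃ i : {i : ℕ // Odd i}, Metric.closedBall ((i : ℕ) : ℝ) (1 / 2) := by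
    ext t
    simp [Fc, Real.dist_eq]
  rw [this]
  apply LocallyFinite.isClosed_iUnion
  · intro x
    refine ⟨Metric.ball x 1, Metric.ball_mem_nhds x one_pos, ?_⟩
    apply Set.Finite.subset ((Set.finite_Iic ⌈|x| + 2⌉₊).preimage
      (Subtype.val_injective.injOn (s := Subtype.val ⁻¹' Set.Iic ⌈|x| + 2⌉₊)))
    · rintro ⟨i, hi⟩ ⟨t, ht1, ht2⟩
      rw [Metric.mem_closedBall, Real.dist_eq, abs_le] at ht1
      rw [Metric.mem_ball, Real.dist_eq, abs_lt] at ht2
      have h1 := le_abs_self x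
      have : (i : ℝ) ≤ |x| + 2 := by simp only at ht1; linarith
      have h2 := Nat.le_ceil (|x| + 2)
      simp only [Set.mem_preimage, Set.mem_Iic]
      exact_mod_cast this.trans h2
  · intro i
    exact Metric.isClosed_closedBall

/-- open part -/
def Uo (a : ℕ → Bool) : Set ℝ := {t | ∀ i : ℕ, t = i + 1 / 2 → a i = true}

theorem isOpen_Uo (a : ℕ → Bool) : IsOpen (Uo a) := by
  have : (Uo a)ᶜ = ⋃ i : {i : ℕ // a i = false}, {(((i : ℕ) : ℝ) + 1 / 2)} := by
    ext t
    simp only [Uo, Set.mem_compl_iff, Set.mem_ofPred_eq, not_forall, Set.mem_iUnion,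
      Set.mem_singleton_iff, Subtype.exists, exists_prop, Bool.not_eq_true]
    constructor
    · rintro ⟨i, h1, h2⟩; exact ⟨i, h2, h1⟩
    · rintro ⟨i, h1, h2⟩; exact ⟨i, h2, h1⟩
  rw [← isClosed_compl_iff, this]
  apply LocallyFinite.isClosed_iUnion
  · intro x
    refine ⟨Metric.ball x 1, Metric.ball_mem_nhds x one_pos, ?_⟩
    apply Set.Finite.subset ((Set.finite_Iic ⌈|x| + 2⌉₊).preimage
      (Subtype.val_injective.injOn (s := Subtype.val ⁻¹' Set.Iic ⌈|x| + 2⌉₊)))
    · rintro ⟨i, hi⟩ ⟨t, ht1, ht2⟩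
      rw [Set.mem_singleton_iff] at ht1
      rw [Metric.mem_ball, Real.dist_eq, abs_lt] at ht2
      have h1 := le_abs_self x
      have : (i : ℝ) ≤ |x| + 2 := by simp only at ht1; linarith
      have h2 := Nat.le_ceil (|x| + 2)
      simp only [Set.mem_preimage, Set.mem_Iic]
      exact_mod_cast this.trans h2
  · intro i
    exact isClosed_singleton

theorem S_eq (a : ℕ → Bool) : S a = Uo a ∩ Fc := by
  ext t
  rcases cases_real t with h | ⟨k, h⟩ | ⟨k, h⟩
  · refine iff_of_false (not_mem_lt h) ?_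
    rintro ⟨_, i, hi, h'⟩
    rw [abs_le] at h'
    have h3 : (i : ℝ) < 1 := by linarith
    have h4 : i < 1 := by exact_mod_cast h3
    have : i = 0 := by omega
    subst this
    simp at hi
  · rw [mem_near h]
    constructor
    · intro hk
      refine ⟨?_, k, hk, h.le⟩
      intro i hi
      subst hi
      exact (not_half_near h).elim
    · rintro ⟨_, i, hi, h'⟩
      rw [abs_lt] at h
      rw [abs_le] at h'
      have h3 : (i : ℝ) < k + 1 := by linarith
      have h4 : (k : ℝ) < i + 1 := by linarith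
      have h3' : i < k + 1 := by exact_mod_cast h3
      have h4' : k < i + 1 := by exact_mod_cast h4
      have : i = k := by omega
      rwa [← this]
  · subst h
    rw [mem_half]
    constructor
    · intro hk
      refine ⟨?_, ?_⟩
      · intro i hi
        have : (k : ℝ) = i := by linarith
        have : k = i := by exact_mod_cast this
        rwa [← this]
      · rcases Nat.even_or_odd k with hk' | hk'
        · refine ⟨k + 1, hk'.add_one, ?_⟩
          push_cast
          rw [abs_le]; constructor <;> linarith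
        · refine ⟨k, hk', ?_⟩
          rw [abs_le]; constructor <;> linarith
    · rintro ⟨h, _⟩
      exact h k rfl

/-! ### From walks to functions -/

/-- transition functions -/
structure Trans (σ : ℝ → ℝ) : Prop where
  zero : ∀ u, u ≤ 0 → σ u = 0
  one : ∀ u, 1 ≤ u → σ u = 1
  nonneg : ∀ u, 0 ≤ σ u
  le_one : ∀ u, σ u ≤ 1
  half : σ (1 / 2) = 1 / 2
  lt_half : ∀ u, u < 1 / 2 → σ u < 1 / 2
  half_lt : ∀ u, 1 / 2 < u → 1 / 2 < σ u

/-- interpolation of a walk, truncated -/
noncomputable def G (σ : ℝ → ℝ) (h : ℕ → ℕ) (N : ℕ) (t : ℝ) : ℝ :=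
  h 0 + ∑ i ∈ Finset.range N, ((h (i + 1) : ℝ) - h i) * σ (t - i)

/-- interpolation of a walk -/
noncomputable def F (σ : ℝ → ℝ) (h : ℕ → ℕ) (t : ℝ) : ℝ := G σ h (⌊t⌋₊ + 1) t

theorem G_eq {σ : ℝ → ℝ} (hσ : Trans σ) (h : ℕ → ℕ) {N M : ℕ} {t : ℝ} (hN : t ≤ N)
    (hNM : N ≤ M) : G σ h M t = G σ h N t := by
  induction M, hNM using Nat.le_induction with
  | base => rfl
  | succ M hM ih =>
    rw [← ih, G, G, Finset.sum_range_succ, hσ.zero (t - M) (by
      have : (N : ℝ) ≤ M := by exact_mod_cast hM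
      linarith)]
    ring

theorem F_eq {σ : ℝ → ℝ} (hσ : Trans σ) (h : ℕ → ℕ) {N : ℕ} {t : ℝ} (hN : t ≤ N) :
    F σ h t = G σ h N t := by
  rw [F]
  have h1 : t ≤ (⌊t⌋₊ + 1 : ℕ) := by
    have := Nat.lt_floor_add_one t
    push_cast
    exact this.le
  rcases le_total N (⌊t⌋₊ + 1) with h2 | h2
  · exact G_eq hσ h hN h2
  · exact (G_eq hσ h h1 h2).symm

theorem G_one {σ : ℝ → ℝ} (hσ : Trans σ) (h : ℕ → ℕ) {N : ℕ} {t : ℝ} (hN : (N : ℝ) ≤ t) :
    G σ h N t = h N := by
  have : ∀ n : ℕ, n ≤ N → G σ h n t = h n := by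
    intro n hn
    induction n with
    | zero => simp [G]
    | succ n ih =>
      have ih := ih (by omega)
      rw [G] at ih ⊢
      rw [Finset.sum_range_succ, ← add_assoc, ih, hσ.one (t - n) (by
        have : ((n + 1 : ℕ) : ℝ) ≤ N := by exact_mod_cast hn
        push_cast at this
        linarith)]
      ring
  exact this N le_rfl

theorem F_cell {σ : ℝ → ℝ} (hσ : Trans σ) (h : ℕ → ℕ) {n : ℕ} {t : ℝ} (h1 : (n : ℝ) ≤ t)
    (h2 : t ≤ n + 1) : F σ h t = h n + ((h (n + 1) : ℝ) - h n) * σ (t - n) := by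
  rw [F_eq hσ h (N := n + 1) (by push_cast; exact h2), G, Finset.sum_range_succ, ← add_assoc]
  have := G_one hσ h h1
  rw [G] at this
  rw [this]

theorem F_neg {σ : ℝ → ℝ} (hσ : Trans σ) (h : ℕ → ℕ) {t : ℝ} (h1 : t ≤ 0) : F σ h t = h 0 := by
  rw [F_eq hσ h (N := 0) (by simpa using h1), G]
  simp

theorem F_mem {σ : ℝ → ℝ} (hσ : Trans σ) {a b : ℕ → Bool} {h : ℕ → ℕ} (h0 : h 0 % 2 = 0)
    (hw : IsWalk a b h) (t : ℝ) : t ∈ S a ↔ F σ h t ∈ S b := by
  have hd : ∀ i, |((h (i + 1) : ℝ) - h i)| = 1 := by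
    intro i
    rcases hw.step i with ⟨h1, _⟩ | ⟨h1, _⟩
    · rw [h1]; push_cast; simp
    · rw [h1]; push_cast; simp
  have hpar : ∀ i, (Odd (h i) ↔ Odd i) := by
    intro i
    have := hw.parity i
    rw [h0] at this
    rw [Nat.odd_iff, Nat.odd_iff]
    omega
  -- near an integer
  have near : ∀ (i : ℕ) (t : ℝ), |t - i| < 1 / 2 → |F σ h t - h i| < 1 / 2 := by
    intro i t ht
    rw [abs_lt] at ht
    rcases le_or_gt (i : ℝ) t with hle | hlt
    · rw [F_cell hσ h hle (by linarith), add_sub_cancel_left, abs_mul, hd, one_mul,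
        abs_of_nonneg (hσ.nonneg _)]
      exact hσ.lt_half _ (by linarith)
    · rcases i with _ | i
      · simp only [Nat.cast_zero] at hlt
        rw [F_neg hσ h hlt.le]
        simp
      · push_cast at hlt ht
        rw [F_cell hσ h (n := i) (by linarith) (by linarith)]
        have h1 := hσ.half_lt (t - i) (by linarith)
        have h2 := hσ.le_one (t - i)
        have e : (h i : ℝ) + ((h (i + 1) : ℝ) - h i) * σ (t - i) - h (i + 1)
            = ((h (i + 1) : ℝ) - h i) * (σ (t - i) - 1) := by ring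
        rw [e, abs_mul, hd, one_mul, abs_lt]
        constructor <;> linarith
  rcases cases_real t with ht | ⟨k, ht⟩ | ⟨k, ht⟩
  · refine iff_of_false (not_mem_lt ht) ?_
    rcases le_or_gt t 0 with h1 | h1
    · rw [F_neg hσ h h1]
      rw [mem_near (k := h 0) (by simp)]
      rw [hpar]; simp
    · have : |t - ((0 : ℕ) : ℝ)| < 1 / 2 := by
        rw [abs_lt]; push_cast; constructor <;> linarith
      rw [mem_near (near 0 t this), hpar]
      simp
  · rw [mem_near ht, mem_near (near k t ht), hpar]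
  · subst ht
    rw [F_cell hσ h (n := k) (by linarith) (by linarith), mem_half]
    have e1 : (k : ℝ) + 1 / 2 - k = 1 / 2 := by ring
    rw [e1, hσ.half]
    rcases hw.step k with ⟨h1, h2⟩ | ⟨h1, h2⟩
    · have e2 : (h k : ℝ) + ((h (k + 1) : ℝ) - h k) * (1 / 2) = h k + 1 / 2 := by
        rw [h1]; push_cast; ring
      rw [e2, mem_half, h2]
    · have e2 : (h k : ℝ) + ((h (k + 1) : ℝ) - h k) * (1 / 2) = h (k + 1) + 1 / 2 := by
        rw [h1]; push_cast; ring
      rw [e2, mem_half, h2]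

/-! ### From functions to walks -/

/-- membership in the `k`-th component -/
def InC (b : ℕ → Bool) (k : ℕ) (s : ℝ) : Prop :=
  (s < 1 / 2 ∧ k = 0) ∨ |s - k| < 1 / 2 ∨ (∃ j : ℕ, s = j + 1 / 2 ∧ (k = j ∨ k = j + 1) ∧
    (b j = true ↔ Odd k))

theorem InC.mem {b : ℕ → Bool} {k : ℕ} {s : ℝ} (h : InC b k s) : s ∈ S b ↔ Odd k := by
  rcases h with ⟨h, rfl⟩ | h | ⟨j, rfl, _, h⟩
  · exact iff_of_false (not_mem_lt h) (by simp)
  · exact mem_near h
  · rw [mem_half, h]

theorem exists_InC (b : ℕ → Bool) (s : ℝ) : ∃ k, InC b k s := by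
  rcases cases_real s with h | ⟨k, h⟩ | ⟨k, h⟩
  · exact ⟨0, Or.inl ⟨h, rfl⟩⟩
  · exact ⟨k, Or.inr (Or.inl h)⟩
  · by_cases hk : (b k = true ↔ Odd k)
    · exact ⟨k, Or.inr (Or.inr ⟨k, h, Or.inl rfl, hk⟩)⟩
    · refine ⟨k + 1, Or.inr (Or.inr ⟨k, h, Or.inr rfl, ?_⟩)⟩
      rw [Nat.odd_add_one]
      tauto

theorem InC.le {b : ℕ → Bool} {k : ℕ} {s : ℝ} (h : InC b k s) : s ≤ k + 1 / 2 := by
  rcases h with ⟨h, rfl⟩ | h | ⟨j, rfl, h, _⟩
  · push_cast; linarith
  · rw [abs_lt] at h; linarith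
  · rcases h with rfl | rfl
    · exact le_rfl
    · push_cast; linarith

theorem InC.ge {b : ℕ → Bool} {k : ℕ} {s : ℝ} (h : InC b k s) (hk : k ≠ 0) :
    (k : ℝ) - 1 / 2 ≤ s := by
  rcases h with ⟨_, h⟩ | h | ⟨j, rfl, h, _⟩
  · exact absurd h hk
  · rw [abs_lt] at h; linarith
  · rcases h with rfl | rfl
    · linarith
    · push_cast; linarith

theorem InC.eq_of_segment {b : ℕ → Bool} {k l : ℕ} {u v : ℝ} (hu : InC b k u) (hv : InC b l v)
    (hle : k ≤ l) (c : Prop) (hseg : ∀ s ∈ Set.Icc u v, (s ∈ S b ↔ c)) (huv : u ≤ v) : k = l := by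
  by_contra hne
  have h1 : k < l := lt_of_le_of_ne hle hne
  have m1 := hseg u ⟨le_rfl, huv⟩
  have m2 := hseg v ⟨huv, le_rfl⟩
  rw [hu.mem] at m1
  rw [hv.mem] at m2
  have hpar : Odd k ↔ Odd l := m1.trans m2.symm
  have h2 : k + 2 ≤ l := by
    rcases Nat.lt_or_ge (k + 1) l with h | h
    · exact h
    · have : l = k + 1 := by omega
      subst this
      rw [Nat.odd_add_one] at hpar
      tauto
  have h3 := hu.le
  have h4 := hv.ge (by omega)
  have h5 : ((k : ℝ) + 2) ≤ l := by exact_mod_cast h2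
  have m3 := hseg ((k + 1 : ℕ) : ℝ) ⟨by push_cast; linarith, by push_cast; linarith⟩
  rw [mem_near (k := k + 1) (by simp)] at m3
  rw [Nat.odd_add_one] at m3
  tauto

theorem InC.eq_of_image {b : ℕ → Bool} {k l : ℕ} {f : ℝ → ℝ} (hf : Continuous f) {I : Set ℝ}
    (hI : IsPreconnected I) {u v : ℝ} (hu : u ∈ I) (hv : v ∈ I) (hk : InC b k (f u))
    (hl : InC b l (f v)) (c : Prop) (hc : ∀ t ∈ I, (f t ∈ S b ↔ c)) : k = l := by
  have hconn : IsPreconnected (f '' I) := hI.image f hf.continuousOn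
  have hord := hconn.ordConnected
  have key : ∀ {k l : ℕ} {u v : ℝ}, u ∈ I → v ∈ I → InC b k (f u) → InC b l (f v) →
      f u ≤ f v → k = l := by
    intro k l u v hu hv hk hl huv
    have hseg : ∀ s ∈ Set.Icc (f u) (f v), (s ∈ S b ↔ c) := by
      intro s hs
      obtain ⟨t, ht, rfl⟩ := hord.out (Set.mem_image_of_mem f hu) (Set.mem_image_of_mem f hv) hs
      exact hc t ht
    rcases le_total k l with h | h
    · exact hk.eq_of_segment hl h c hseg huv
    · -- l ≤ k
      by_contra hne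
      have h1 : l < k := lt_of_le_of_ne h (Ne.symm hne)
      have m1 := hseg (f u) ⟨le_rfl, huv⟩
      have m2 := hseg (f v) ⟨huv, le_rfl⟩
      rw [hk.mem] at m1
      rw [hl.mem] at m2
      have hpar : Odd k ↔ Odd l := m1.trans m2.symm
      have h2 : l + 2 ≤ k := by
        rcases Nat.lt_or_ge (l + 1) k with h | h
        · exact h
        · have : k = l + 1 := by omega
          subst this
          rw [Nat.odd_add_one] at hpar
          tauto
      have h3 := hl.le
      have h4 := hk.ge (by omega)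
      have h5 : ((l : ℝ) + 2) ≤ k := by exact_mod_cast h2
      linarith
  rcases le_total (f u) (f v) with h | h
  · exact key hu hv hk hl h
  · exact (key hv hu hl hk h).symm

theorem walk_of_reduction {a b : ℕ → Bool} {f : ℝ → ℝ} (hf : Continuous f)
    (hred : S a = f ⁻¹' S b) : ∃ h : ℕ → ℕ, h 0 % 2 = 0 ∧ IsWalk a b h := by
  have hmem : ∀ t, t ∈ S a ↔ f t ∈ S b := fun t => by
    conv_lhs => rw [hred]
    rfl
  choose h hh using fun i : ℕ => exists_InC b (f i)
  have hpar : ∀ i : ℕ, (Odd (h i) ↔ Odd i) := by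
    intro i
    rw [← (hh i).mem, ← hmem, mem_near (k := i) (by simp)]
  refine ⟨h, ?_, ⟨?_⟩⟩
  · have := hpar 0
    rw [Nat.odd_iff] at this
    simp at this
    omega
  · intro i
    -- adjacency
    have adj : ∀ {k l : ℕ} {s : ℝ}, ¬ (Odd k ↔ Odd l) → s ≤ k + 1 / 2 → s ≤ l + 1 / 2 →
        (k ≠ 0 → (k : ℝ) - 1 / 2 ≤ s) → (l ≠ 0 → (l : ℝ) - 1 / 2 ≤ s) →
        (l = k + 1 ∧ s = k + 1 / 2) ∨ (k = l + 1 ∧ s = l + 1 / 2) := by
      intro k l s hne h1 h2 h3 h4
      rcases lt_trichotomy k l with h | h | h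
      · left
        have h5 := h4 (by omega)
        have h6 : (k : ℝ) + 1 ≤ l := by exact_mod_cast h
        have h7 : (l : ℝ) < k + 2 := by linarith
        have h8 : l < k + 2 := by exact_mod_cast h7
        have h9 : l = k + 1 := by omega
        refine ⟨h9, ?_⟩
        subst h9
        push_cast at h5
        linarith
      · subst h; exact absurd Iff.rfl hne
      · right
        have h5 := h3 (by omega)
        have h6 : (l : ℝ) + 1 ≤ k := by exact_mod_cast h
        have h7 : (k : ℝ) < l + 2 := by linarith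
        have h8 : k < l + 2 := by exact_mod_cast h7
        have h9 : k = l + 1 := by omega
        refine ⟨h9, ?_⟩
        subst h9
        push_cast at h5
        linarith
    have bounds : ∀ {I : Set ℝ}, IsPreconnected I → ∀ {u : ℝ}, u ∈ I → ∀ {k : ℕ}, InC b k (f u) →
        ∀ (c : Prop), (∀ t ∈ I, (f t ∈ S b ↔ c)) → ∀ t ∈ closure I,
        f t ≤ k + 1 / 2 ∧ (k ≠ 0 → (k : ℝ) - 1 / 2 ≤ f t) := by
      intro I hI u hu k hk c hc t ht
      have all : ∀ s ∈ I, InC b k (f s) := by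
        intro s hs
        obtain ⟨k', hk'⟩ := exists_InC b (f s)
        rwa [InC.eq_of_image hf hI hu hs hk hk' c hc]
      constructor
      · exact closure_minimal (s := I) (t := {s | f s ≤ k + 1 / 2})
          (fun s hs => (all s hs).le) (isClosed_le hf continuous_const) ht
      · intro hk0
        exact closure_minimal (s := I) (t := {s | (k : ℝ) - 1 / 2 ≤ f s})
          (fun s hs => (all s hs).ge hk0) (isClosed_le continuous_const hf) ht
    have hne : ¬ (Odd (h i) ↔ Odd (h (i + 1))) := by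
      rw [hpar, hpar, Nat.odd_add_one]
      tauto
    have fin : (h (i + 1) = h i + 1 ∧ f (i + 1 / 2) = h i + 1 / 2) ∨
        (h i = h (i + 1) + 1 ∧ f (i + 1 / 2) = h (i + 1) + 1 / 2) := by
      have A := bounds (I := Set.Ico (i : ℝ) (i + 1 / 2)) isPreconnected_Ico (u := (i : ℝ))
        ⟨le_rfl, by linarith⟩ (hh i) (Odd i) (by
          intro t ht
          rw [← hmem]
          apply mem_near
          rw [abs_lt]
          constructor <;> linarith [ht.1, ht.2]) ((i : ℝ) + 1 / 2) (by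
          rw [closure_Ico (by linarith)]
          exact ⟨by linarith, le_rfl⟩)
      have C := bounds (I := Set.Ioc ((i : ℝ) + 1 / 2) (i + 1)) isPreconnected_Ioc
        (u := ((i + 1 : ℕ) : ℝ)) ⟨by push_cast; linarith, by push_cast; exact le_rfl⟩
        (hh (i + 1)) (Odd (i + 1)) (by
          intro t ht
          rw [← hmem]
          apply mem_near
          rw [abs_lt]
          push_cast
          constructor <;> linarith [ht.1, ht.2]) ((i : ℝ) + 1 / 2) (by
          rw [closure_Ioc (by linarith)]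
          exact ⟨le_rfl, by linarith⟩)
      exact adj hne A.1 C.1 A.2 C.2
    have hlab : a i = true ↔ f (i + 1 / 2) ∈ S b := by
      rw [← hmem, mem_half]
    rcases fin with ⟨h1, h2⟩ | ⟨h1, h2⟩
    · left
      refine ⟨h1, ?_⟩
      rw [h2, mem_half] at hlab
      exact Bool.eq_iff_iff.2 hlab
    · right
      refine ⟨h1, ?_⟩
      rw [h2, mem_half] at hlab
      exact Bool.eq_iff_iff.2 hlab

end Pool.Agent.Hhelper69.PF
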