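import Mathlib
import Pool.Agent.Hhelper69.PomegaFinGeom

/-!
Final assembly for MP_b9d480_lc.
-/

namespace Pool.Agent.Hhelper69.PF

open Set

/-- clamp -/
noncomputable def clamp (u : ℝ) : ℝ := max 0 (min u 1)

theorem trans_clamp : Trans clamp where
  zero u hu := by
    unfold clamp
    rw [min_eq_left (by linarith), max_eq_left hu]
  one u hu := by
    unfold clamp
    rw [min_eq_right hu]
    norm_num
  nonneg u := le_max_left _ _
  le_one u := by
    unfold clamp
    exact max_le (by norm_num) (min_le_right _ _)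
  half := by
    unfold clamp
    rw [min_eq_left (by norm_num)]
    norm_num
  lt_half u hu := by
    unfold clamp
    exact max_lt (by norm_num) (lt_of_le_of_lt (min_le_left _ _) hu)
  half_lt u hu := by
    unfold clamp
    exact lt_max_of_lt_right (lt_min hu (by norm_num))

theorem clamp_mono : Monotone clamp := by
  intro u v h
  unfold clamp
  exact max_le_max le_rfl (min_le_min h le_rfl)

theorem sum_clamp (N : ℕ) (t : ℝ) :
    ∑ i ∈ Finset.range N, clamp (t - i) = max 0 (min t N) := by
  induction N with
  | zero => simp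
  | succ N ih =>
    rw [Finset.sum_range_succ, ih]
    unfold clamp
    push_cast
    have hN : (0 : ℝ) ≤ N := Nat.cast_nonneg N
    rcases le_total t N with h | h
    · rw [min_eq_left h, min_eq_left (by linarith : t - N ≤ 1), max_eq_left (by linarith :
        t - N ≤ 0), min_eq_left (by linarith : t ≤ N + 1), add_zero]
    · rw [min_eq_right h, max_eq_right hN]
      rcases le_total t (N + 1) with h' | h'
      · rw [min_eq_left (by linarith : t - N ≤ 1), max_eq_right (by linarith : 0 ≤ t - N),
          min_eq_left h', max_eq_right (by linarith : 0 ≤ t)]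
        ring
      · rw [min_eq_right (by linarith : 1 ≤ t - N), min_eq_right h', max_eq_right zero_le_one,
          max_eq_right (by linarith : (0:ℝ) ≤ N + 1)]

theorem lipschitz_F {a b : ℕ → Bool} {h : ℕ → ℕ} (hw : IsWalk a b h) :
    LipschitzWith 1 (F clamp h) := by
  have hd : ∀ i, |((h (i + 1) : ℝ) - h i)| = 1 := by
    intro i
    rcases hw.step i with ⟨h1, _⟩ | ⟨h1, _⟩
    · rw [h1]; push_cast; simp
    · rw [h1]; push_cast; simp
  have key : ∀ s t : ℝ, s ≤ t → |F clamp h t - F clamp h s| ≤ t - s := by
    intro s t hst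
    obtain ⟨N, hN⟩ := exists_nat_ge t
    rw [F_eq trans_clamp h hN, F_eq trans_clamp h (hst.trans hN)]
    have e : G clamp h N t - G clamp h N s
        = ∑ i ∈ Finset.range N, ((h (i + 1) : ℝ) - h i) * (clamp (t - i) - clamp (s - i)) := by
      simp only [G, mul_sub, Finset.sum_sub_distrib]
      ring
    rw [e]
    calc |∑ i ∈ Finset.range N, ((h (i + 1) : ℝ) - h i) * (clamp (t - i) - clamp (s - i))|
        ≤ ∑ i ∈ Finset.range N, |((h (i + 1) : ℝ) - h i) * (clamp (t - i) - clamp (s - i))| :=
          Finset.abs_sum_le_sum_abs _ _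
      _ = ∑ i ∈ Finset.range N, (clamp (t - i) - clamp (s - i)) := by
          apply Finset.sum_congr rfl
          intro i _
          rw [abs_mul, hd, one_mul, abs_of_nonneg]
          have := clamp_mono (show s - i ≤ t - i by linarith)
          linarith
      _ = max 0 (min t N) - max 0 (min s N) := by
          rw [Finset.sum_sub_distrib, sum_clamp, sum_clamp]
      _ ≤ t - s := by
          rw [min_eq_left hN, min_eq_left (hst.trans hN)]
          rcases le_total 0 s with h1 | h1
          · rw [max_eq_right h1, max_eq_right (h1.trans hst)]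
          · rw [max_eq_left h1]
            rcases le_total 0 t with h2 | h2
            · rw [max_eq_right h2]; linarith
            · rw [max_eq_left h2]; linarith
  apply LipschitzWith.of_dist_le_mul
  intro s t
  rw [Real.dist_eq, Real.dist_eq]
  simp only [NNReal.coe_one, one_mul]
  rcases le_total s t with hst | hst
  · rw [abs_sub_comm, abs_sub_comm s t, abs_of_nonneg (by linarith : 0 ≤ t - s)]
    exact key s t hst
  · rw [abs_of_nonneg (by linarith : 0 ≤ s - t)]
    exact key t s hst

theorem expNegInvGlue_lt {u v : ℝ} (hv : 0 < v) (huv : u < v) :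
    expNegInvGlue u < expNegInvGlue v := by
  rcases le_or_gt u 0 with hu | hu
  · rw [expNegInvGlue.zero_of_nonpos hu]
    exact expNegInvGlue.pos_of_pos hv
  · unfold expNegInvGlue
    rw [if_neg (not_le.2 hu), if_neg (not_le.2 hv)]
    apply Real.exp_lt_exp.2
    have := (inv_lt_inv₀ hv hu).2 huv
    linarith

theorem trans_smooth : Trans Real.smoothTransition where
  zero u hu := Real.smoothTransition.zero_of_nonpos hu
  one u hu := Real.smoothTransition.one_of_one_le hu
  nonneg u := Real.smoothTransition.nonneg u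
  le_one u := Real.smoothTransition.le_one u
  half := by
    unfold Real.smoothTransition
    have h := Real.smoothTransition.pos_denom (1 / 2)
    rw [show (1 : ℝ) - 1 / 2 = 1 / 2 by norm_num] at h ⊢
    field_simp
    ring
  lt_half u hu := by
    unfold Real.smoothTransition
    have h := Real.smoothTransition.pos_denom u
    rw [div_lt_iff₀ h]
    have := expNegInvGlue_lt (u := u) (v := 1 - u) (by linarith) (by linarith)
    linarith
  half_lt u hu := by
    unfold Real.smoothTransition
    have h := Real.smoothTransition.pos_denom u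
    rw [lt_div_iff₀ h]
    have := expNegInvGlue_lt (u := 1 - u) (v := u) (by linarith) (by linarith)
    linarith

theorem contDiff_F (h : ℕ → ℕ) : ContDiff ℝ (⊤ : ℕ∞) (F Real.smoothTransition h) := by
  rw [contDiff_iff_contDiffAt]
  intro t
  obtain ⟨N, hN⟩ := exists_nat_gt t
  have hG : ContDiff ℝ (⊤ : ℕ∞) (G Real.smoothTransition h N) := by
    unfold G
    apply contDiff_const.add
    apply ContDiff.sum
    intro i _
    exact contDiff_const.mul (Real.smoothTransition.contDiff.comp (contDiff_id.sub contDiff_const))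
  apply hG.contDiffAt.congr_of_eventuallyEq
  filter_upwards [Iio_mem_nhds hN] with s hs
  exact F_eq trans_smooth h (le_of_lt hs)

open Classical in
/-- characteristic function -/
noncomputable def chi (x : Set ℕ) : ℕ → Bool := fun n => decide (n ∈ x)

theorem chi_eq {x : Set ℕ} {n : ℕ} : chi x n = true ↔ n ∈ x := by simp [chi]

/-- the embedding -/
noncomputable def A (x : Set ℕ) : Set ℝ := S (sq (chi x))

theorem A_d2 (x : Set ℕ) : ∃ U F : Set ℝ, IsOpen U ∧ IsClosed F ∧ A x = U ∩ F :=
  ⟨Uo _, Fc, isOpen_Uo _, isClosed_Fc, S_eq _⟩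

theorem exists_walk {x y : Set ℕ} (h : (x \ y).Finite) :
    ∃ h : ℕ → ℕ, h 0 % 2 = 0 ∧ IsWalk (sq (chi x)) (sq (chi y)) h := by
  obtain ⟨m, hm⟩ := h.bddAbove
  apply isWalk_of_finite (n₀ := m + 1)
  intro n hn hx
  rw [chi_eq] at hx ⊢
  by_contra hy
  have := hm ⟨hx, hy⟩
  omega

theorem finite_of_reduction {x y : Set ℕ} {f : ℝ → ℝ} (hf : Continuous f)
    (h : A x = f ⁻¹' A y) : (x \ y).Finite := by
  obtain ⟨g, h0, hw⟩ := walk_of_reduction hf h
  apply (Set.finite_Iio (g 0)).subset
  rintro n ⟨hx, hy⟩
  by_contra hn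
  rw [Set.mem_Iio, not_lt] at hn
  exact hy (chi_eq.1 (rigid h0 hw hn (chi_eq.2 hx)))

theorem main_lipschitz (x y : Set ℕ) : (x \ y).Finite ↔
    ∃ f : ℝ → ℝ, (∃ K : NNReal, LipschitzWith K f) ∧ A x = f ⁻¹' A y := by
  constructor
  · intro h
    obtain ⟨g, h0, hw⟩ := exists_walk h
    exact ⟨F clamp g, ⟨1, lipschitz_F hw⟩, Set.ext (F_mem trans_clamp h0 hw)⟩
  · rintro ⟨f, ⟨K, hK⟩, h⟩
    exact finite_of_reduction hK.continuous h

theorem main_smooth (x y : Set ℕ) : (x \ y).Finite ↔
    ∃ f : ℝ → ℝ, ContDiff ℝ (⊤ : ℕ∞) f ∧ A x = f ⁻¹' A y := by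
  constructor
  · intro h
    obtain ⟨g, h0, hw⟩ := exists_walk h
    exact ⟨F Real.smoothTransition g, contDiff_F g, Set.ext (F_mem trans_smooth h0 hw)⟩
  · rintro ⟨f, hf, h⟩
    exact finite_of_reduction hf.continuous h

end Pool.Agent.Hhelper69.PF
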